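import Pool.Agent.Helper376.CD.Lab

/-! The edge relation is computable. -/

set_option autoImplicit false

namespace Pool.Agent.Helper376.CD

open Pool.Agent.Helper158.FCD

section aux_adj

variable {α : Type*} [Primcodable α]

theorem c_eqN {f g : α → ℕ} (hf : Computable f) (hg : Computable g) :
    Computable (fun a => decide (f a = g a)) :=
  (Primrec.eq (α := ℕ)).decide.to_comp.comp hf hg

theorem c_eqB {f g : α → Bool} (hf : Computable f) (hg : Computable g) :
    Computable (fun a => decide (f a = g a)) :=
  (Primrec.eq (α := Bool)).decide.to_comp.comp hf hg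

theorem c_or {f g : α → Bool} (hf : Computable f) (hg : Computable g) :
    Computable (fun a => f a || g a) := Primrec.or.to_comp.comp hf hg

theorem c_and {f g : α → Bool} (hf : Computable f) (hg : Computable g) :
    Computable (fun a => f a && g a) := Primrec.and.to_comp.comp hf hg

theorem c_xor {f g : α → Bool} (hf : Computable f) (hg : Computable g) :
    Computable (fun a => xor (f a) (g a)) := (Primrec.dom_bool₂ xor).to_comp.comp hf hg

theorem c_add {f g : α → ℕ} (hf : Computable f) (hg : Computable g) :
    Computable (fun a => f a + g a) := Primrec.nat_add.to_comp.comp hf hg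

theorem c_addc {f : α → ℕ} (hf : Computable f) (c : ℕ) :
    Computable (fun a => f a + c) := c_add hf (Computable.const c)

theorem c_len {f : α → List Bool} (hf : Computable f) :
    Computable (fun a => (f a).length) := Computable.list_length.comp hf

theorem c_bit {f : α → List Bool} {g : α → ℕ} (hf : Computable f) (hg : Computable g) :
    Computable (fun a => bit (f a) (g a)) := (Primrec.list_getD false).to_comp.comp hf hg

end aux_adj

/-- row of a spine vertex -/
def rowP (T : TorsorData) (n : ℕ) : V → Bool
  | .P m => decide (m = n + 1) || decide (m = n + 2)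
  | .U i m _ => decide (n = i + m + 1) || (decide (m = 0) && decide (n = i + 5))
  | .Z k => @Option.casesOn _ (fun _ => Bool) (act T k) (decide (n = k) || decide (n = k + 3))
      (fun x => decide (n = x.length + 2) || decide (n = x.length + 9))

/-- row of a ribbon vertex -/
def rowU (T : TorsorData) (w : ℕ → List Bool) (q : ℕ × ℕ × Bool) : V → Bool
  | .P _ => false
  | .U i' m' e' => decide (i' = q.1) && (decide (e' = q.2.2) && decide (m' = q.2.1 + 1))
  | .Z k => @Option.casesOn _ (fun _ => Bool) (act T k) false
      (fun x => decide (q.1 + q.2.1 + 1 = x.length) &&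
        decide (q.2.2 = xor (bit x q.1) (bit (w x.length) q.1)))

/-- the oriented edge relation, Boolean version -/
def rB (T : TorsorData) (w : ℕ → List Bool) : V → V → Bool
  | .P n => rowP T n
  | .U i m e => rowU T w (i, m, e)
  | .Z _ => fun _ => false

theorem rB_iff (T : TorsorData) (w : ℕ → List Bool) (a b : V) : rB T w a b = true ↔ R T w a b := by
  rcases a with n | ⟨i, m, e⟩ | k <;> rcases b with n' | ⟨i', m', e'⟩ | k'
  · simp [rB, rowP, R]
  · simp [rB, rowP, R]
  · cases h : act T k' with
    | none => simp [rB, rowP, R, h]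
    | some x => simp [rB, rowP, R, h]
  · simp [rB, rowU, R]
  · simp [rB, rowU, R]
  · cases h : act T k' with
    | none => simp [rB, rowU, R, h]
    | some x => simp [rB, rowU, R, h]
  · simp [rB, R]
  · simp [rB, R]
  · simp [rB, R]

theorem rowP_comp (T : TorsorData) : Computable (fun q : (V × V) × ℕ => rowP T q.2 q.1.2) := by
  have hf : Computable (fun q : (V × V) × ℕ => q.1.2) := Computable.snd.comp Computable.fst
  refine cases_comp (gP := fun (q : (V × V) × ℕ) m => decide (m = q.2 + 1) || decide (m = q.2 + 2))
    (gU := fun (q : (V × V) × ℕ) (u : ℕ × ℕ × Bool) =>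
      decide (q.2 = u.1 + u.2.1 + 1) || (decide (u.2.1 = 0) && decide (q.2 = u.1 + 5)))
    (gZ := fun (q : (V × V) × ℕ) k => @Option.casesOn _ (fun _ => Bool) (act T k)
      (decide (q.2 = k) || decide (q.2 = k + 3))
      (fun x => decide (q.2 = x.length + 2) || decide (q.2 = x.length + 9))) hf ?_ ?_ ?_ ?_ ?_ ?_
  · have hn : Computable (fun z : ((V × V) × ℕ) × ℕ => z.1.2) := Computable.snd.comp Computable.fst
    exact c_or (c_eqN Computable.snd (c_addc hn 1)) (c_eqN Computable.snd (c_addc hn 2))
  · have hn : Computable (fun z : ((V × V) × ℕ) × (ℕ × ℕ × Bool) => z.1.2) :=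
      Computable.snd.comp Computable.fst
    have h1 : Computable (fun z : ((V × V) × ℕ) × (ℕ × ℕ × Bool) => z.2.1) :=
      Computable.fst.comp Computable.snd
    have h2 : Computable (fun z : ((V × V) × ℕ) × (ℕ × ℕ × Bool) => z.2.2.1) :=
      Computable.fst.comp (Computable.snd.comp Computable.snd)
    exact c_or (c_eqN hn (c_addc (c_add h1 h2) 1))
      (c_and (c_eqN h2 (Computable.const 0)) (c_eqN hn (c_addc h1 5)))
  · have hn : Computable (fun z : ((V × V) × ℕ) × ℕ => z.1.2) := Computable.snd.comp Computable.fst
    refine Computable.option_casesOn ((act_comp T).comp Computable.snd)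
      (c_or (c_eqN hn Computable.snd) (c_eqN hn (c_addc Computable.snd 3))) ?_
    have hn' : Computable (fun z : (((V × V) × ℕ) × ℕ) × List Bool => z.1.1.2) :=
      hn.comp Computable.fst
    exact c_or (c_eqN hn' (c_addc (c_len Computable.snd) 2))
      (c_eqN hn' (c_addc (c_len Computable.snd) 9))
  · intro q m h
    simp only [h, rowP]
  · intro q i m e h
    simp only [h, rowP]
  · intro q k h
    simp only [h, rowP]

theorem rowU_comp (T : TorsorData) (w : ℕ → List Bool) (hw : Computable w) :
    Computable (fun q : (V × V) × (ℕ × ℕ × Bool) => rowU T w q.2 q.1.2) := by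
  have hf : Computable (fun q : (V × V) × (ℕ × ℕ × Bool) => q.1.2) :=
    Computable.snd.comp Computable.fst
  refine cases_comp (gP := fun (_ : (V × V) × (ℕ × ℕ × Bool)) _ => false)
    (gU := fun (q : (V × V) × (ℕ × ℕ × Bool)) (u : ℕ × ℕ × Bool) =>
      decide (u.1 = q.2.1) && (decide (u.2.2 = q.2.2.2) && decide (u.2.1 = q.2.2.1 + 1)))
    (gZ := fun (q : (V × V) × (ℕ × ℕ × Bool)) k => @Option.casesOn _ (fun _ => Bool) (act T k) false
      (fun x => decide (q.2.1 + q.2.2.1 + 1 = x.length) &&
        decide (q.2.2.2 = xor (bit x q.2.1) (bit (w x.length) q.2.1)))) hf ?_ ?_ ?_ ?_ ?_ ?_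
  · exact Computable.const false
  · have h1 : Computable (fun z : ((V × V) × (ℕ × ℕ × Bool)) × (ℕ × ℕ × Bool) => z.1.2) :=
      Computable.snd.comp Computable.fst
    have h2 : Computable (fun z : ((V × V) × (ℕ × ℕ × Bool)) × (ℕ × ℕ × Bool) => z.2) :=
      Computable.snd
    exact c_and (c_eqN (Computable.fst.comp h2) (Computable.fst.comp h1))
      (c_and (c_eqB (Computable.snd.comp (Computable.snd.comp h2))
        (Computable.snd.comp (Computable.snd.comp h1)))
        (c_eqN (Computable.fst.comp (Computable.snd.comp h2))
          (c_addc (Computable.fst.comp (Computable.snd.comp h1)) 1)))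
  · refine Computable.option_casesOn ((act_comp T).comp Computable.snd) (Computable.const false) ?_
    have h1 : Computable (fun z : (((V × V) × (ℕ × ℕ × Bool)) × ℕ) × List Bool => z.1.1.2) :=
      Computable.snd.comp (Computable.fst.comp Computable.fst)
    have hx : Computable (fun z : (((V × V) × (ℕ × ℕ × Bool)) × ℕ) × List Bool => z.2) :=
      Computable.snd
    exact c_and (c_eqN (c_addc (c_add (Computable.fst.comp h1)
        (Computable.fst.comp (Computable.snd.comp h1))) 1) (c_len hx))
      (c_eqB (Computable.snd.comp (Computable.snd.comp h1))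
        (c_xor (c_bit hx (Computable.fst.comp h1))
          (c_bit (hw.comp (c_len hx)) (Computable.fst.comp h1))))
  · intro q m h
    simp only [h, rowU]
  · intro q i m e h
    simp only [h, rowU]
  · intro q k h
    simp only [h, rowU]

theorem rB_comp (T : TorsorData) (w : ℕ → List Bool) (hw : Computable w) :
    Computable (fun p : V × V => rB T w p.1 p.2) := by
  refine cases_comp (gP := fun (p : V × V) n => rowP T n p.2)
    (gU := fun (p : V × V) u => rowU T w u p.2)
    (gZ := fun (_ : V × V) _ => false) Computable.fst (rowP_comp T) (rowU_comp T w hw)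
    (Computable.const false) ?_ ?_ ?_
  · intro q m h
    simp only [h, rB]
  · intro q i m e h
    simp only [h, rB]
  · intro q k h
    simp only [h, rB]

theorem adj_comp (T : TorsorData) (w : ℕ → List Bool) (hw : Computable w) :
    ∃ f : V → V → Bool, Computable₂ f ∧ ∀ a b, f a b = true ↔ (GV T w).Adj a b := by
  refine ⟨fun a b => rB T w a b || rB T w b a, ?_, ?_⟩
  · have h1 := rB_comp T w hw
    have h2 : Computable (fun p : V × V => rB T w p.2 p.1) :=
      h1.comp (Computable.pair Computable.snd Computable.fst)
    exact c_or h1 h2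
  · intro a b
    rw [Bool.or_eq_true, rB_iff, rB_iff]
    rfl

end Pool.Agent.Helper376.CD
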