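import Pool.Agent.Helper376.CD.Lab

/-! Common neighbours. -/

set_option autoImplicit false

namespace Pool.Agent.Helper376.CD

open Pool.Agent.Helper158.FCD

theorem triangle (T : TorsorData) (w : ℕ → List Bool) {a b c : V} (h1 : (GV T w).Adj a b)
    (h2 : (GV T w).Adj b c) (h3 : (GV T w).Adj a c) : ∃ n, a = .P n := by
  rcases a with n | ⟨i, m, e⟩ | k
  · exact ⟨n, rfl⟩
  · exfalso
    rcases b with n' | ⟨i', m', e'⟩ | k' <;> rcases c with n'' | ⟨i'', m'', e''⟩ | k''
    · simp [GV, R] at h1 h2 h3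
      omega
    · simp [GV, R] at h1 h2 h3
      omega
    · rcases hk : act T k'' with _ | x <;> simp [GV, R, hk] at h1 h2 h3
      omega
    · simp [GV, R] at h1 h2 h3
      omega
    · simp [GV, R] at h1 h2 h3
      omega
    · rcases hk : act T k'' with _ | x <;> simp [GV, R, hk] at h1 h2 h3
      omega
    · rcases hk : act T k' with _ | x <;> simp [GV, R, hk] at h1 h2 h3
      omega
    · rcases hk : act T k' with _ | x <;> simp [GV, R, hk] at h1 h2 h3
      omega
    · simp [GV, R] at h2
  · exfalso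
    rcases b with n' | ⟨i', m', e'⟩ | k' <;> rcases c with n'' | ⟨i'', m'', e''⟩ | k''
    · rcases hk : act T k with _ | x <;> simp [GV, R, hk] at h1 h2 h3 <;> omega
    · rcases hk : act T k with _ | x <;> simp [GV, R, hk] at h1 h2 h3
      omega
    · simp [GV, R] at h3
    · rcases hk : act T k with _ | x <;> simp [GV, R, hk] at h1 h2 h3
      omega
    · rcases hk : act T k with _ | x <;> simp [GV, R, hk] at h1 h2 h3
      omega
    · simp [GV, R] at h3
    · simp [GV, R] at h1
    · simp [GV, R] at h1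
    · simp [GV, R] at h1

theorem cn_one (T : TorsorData) (w : ℕ → List Bool) {n : ℕ} {c : V}
    (h1 : (GV T w).Adj (.P n) c) (h2 : (GV T w).Adj (.P (n + 1)) c) :
    c = .P (n + 2) ∨ ∃ k, n = k + 1 ∧ c = .P k := by
  rcases c with n' | ⟨i', m', e'⟩ | k'
  · simp [GV, R] at h1 h2
    rcases Nat.eq_zero_or_pos n with h | h
    · left
      congr 1
      omega
    · by_cases h3 : n' = n + 2
      · left
        rw [h3]
      · right
        exact ⟨n', by omega, rfl⟩
  · exfalso
    simp [GV, R] at h1 h2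
    omega
  · exfalso
    rcases hk : act T k' with _ | x <;> simp [GV, R, hk] at h1 h2 <;> omega

theorem cn_three (T : TorsorData) (w : ℕ → List Bool) {k : ℕ} {c : V}
    (h1 : (GV T w).Adj (.P k) c) (h2 : (GV T w).Adj (.P (k + 3)) c) :
    c = .P (k + 1) ∨ c = .P (k + 2) ∨ (act T k = none ∧ c = .Z k) := by
  rcases c with n' | ⟨i', m', e'⟩ | k'
  · simp [GV, R] at h1 h2
    by_cases h3 : n' = k + 1
    · left
      rw [h3]
    · right
      left
      congr 1
      omega
  · exfalso
    simp [GV, R] at h1 h2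
    omega
  · right
    right
    rcases hk : act T k' with _ | x <;> simp [GV, R, hk] at h1 h2
    · have h3 : k = k' := by omega
      subst h3
      exact ⟨hk, rfl⟩
    · omega

theorem adj_Z (T : TorsorData) (w : ℕ → List Bool) {i m k : ℕ} {e : Bool} {x : List Bool}
    (hx : act T k = some x) (hl : i + m + 1 = x.length) :
    (GV T w).Adj (.Z k) (.U i m e) ↔ e = xor (bit x i) (bit (w x.length) i) := by
  simp only [GV, R, hx, false_or, Option.some.injEq]
  constructor
  · rintro ⟨y, rfl, -, h⟩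
    exact h
  · intro h
    exact ⟨x, rfl, hl, h⟩

theorem cn_four (T : TorsorData) (w : ℕ → List Bool) {i : ℕ} {c : V}
    (h1 : (GV T w).Adj (.P (i + 1)) c) (h2 : (GV T w).Adj (.P (i + 5)) c) :
    c = .P (i + 3) ∨ ∃ e, c = .U i 0 e := by
  have h1' : R T w (.P (i + 1)) c ∨ R T w c (.P (i + 1)) := h1
  have h2' : R T w (.P (i + 5)) c ∨ R T w c (.P (i + 5)) := h2
  rcases c with n | ⟨j, m, e⟩ | k
  · simp only [R] at h1' h2'
    left
    congr 1
    omega
  · simp only [R, or_false] at h1' h2'
    right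
    have a1 : m = 0 := by omega
    have a2 : j = i := by omega
    exact ⟨e, by rw [a1, a2]⟩
  · simp only [R, or_false] at h1' h2'
    exfalso
    rcases h1' with ⟨b1, b2⟩ | ⟨x, b1, b2⟩ <;> rcases h2' with ⟨b3, b4⟩ | ⟨y, b3, b4⟩
    · omega
    · rw [b1] at b3
      exact absurd b3 (by simp)
    · rw [b1] at b3
      exact absurd b3 (by simp)
    · rw [b1] at b3
      simp only [Option.some.injEq] at b3
      subst b3
      omega

theorem cn_seven (T : TorsorData) (w : ℕ → List Bool) {l : ℕ} {c : V}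
    (h1 : (GV T w).Adj (.P (l + 2)) c) (h2 : (GV T w).Adj (.P (l + 9)) c) :
    ∃ k x, act T k = some x ∧ x.length = l ∧ c = .Z k := by
  have h1' : R T w (.P (l + 2)) c ∨ R T w c (.P (l + 2)) := h1
  have h2' : R T w (.P (l + 9)) c ∨ R T w c (.P (l + 9)) := h2
  rcases c with n | ⟨j, m, e⟩ | k
  · simp only [R] at h1' h2'
    omega
  · simp only [R, or_false] at h1' h2'
    omega
  · simp only [R, or_false] at h1' h2'
    rcases h1' with ⟨b1, b2⟩ | ⟨x, b1, b2⟩ <;> rcases h2' with ⟨b3, b4⟩ | ⟨y, b3, b4⟩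
    · omega
    · rw [b1] at b3
      exact absurd b3 (by simp)
    · rw [b1] at b3
      exact absurd b3 (by simp)
    · rw [b1] at b3
      simp only [Option.some.injEq] at b3
      subst b3
      exact ⟨k, x, b1, by omega, rfl⟩

theorem cn_U (T : TorsorData) (w : ℕ → List Bool) {i m : ℕ} {e : Bool} {c : V}
    (h1 : (GV T w).Adj (.U i m e) c) (h2 : (GV T w).Adj (.P (i + m + 2)) c) :
    c = .P (i + m + 1) ∨ c = .U i (m + 1) e := by
  have h1' : R T w (.U i m e) c ∨ R T w c (.U i m e) := h1
  have h2' : R T w (.P (i + m + 2)) c ∨ R T w c (.P (i + m + 2)) := h2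
  rcases c with n | ⟨j, m', e'⟩ | k
  · simp only [R, false_or] at h1' h2'
    left
    congr 1
    omega
  · simp only [R, or_false] at h1' h2'
    right
    rcases h1' with ⟨b1, b2, b3⟩ | ⟨b1, b2, b3⟩
    · rw [b1, b2, b3]
    · omega
  · simp only [R, or_false] at h1' h2'
    exfalso
    obtain ⟨x, b1, b2, b5⟩ := h1'
    rcases h2' with ⟨b3, b4⟩ | ⟨y, b3, b4⟩
    · rw [b1] at b3
      exact absurd b3 (by simp)
    · rw [b1] at b3
      simp only [Option.some.injEq] at b3
      subst b3
      omega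

end Pool.Agent.Helper376.CD
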