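import Pool.Agent.Helper376.CD.CN

/-! Flips and compactness. -/

set_option autoImplicit false

namespace Pool.Agent.Helper376.CD

open Pool.Agent.Helper158.FCD

/-- the flip map -/
def flipMap (z : ℕ → ℕ) (σ : ℕ → Bool) : V → V
  | .P n => .P n
  | .U i m e => .U i m (xor e (σ i))
  | .Z k => .Z (z k)

theorem flip_R (T : TorsorData) (w w' f : ℕ → List Bool) (hf : ∀ l, (f l).length = l)
    (σ : ℕ → Bool)
    (hb : ∀ l i, i < l → bit (f l) i = xor (σ i) (xor (bit (w l) i) (bit (w' l) i)))
    (z : ℕ → ℕ) (hz1 : ∀ k, act T k = none → z k = k)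
    (hz2 : ∀ k x, act T k = some x → act T (z k) = some (sx x (f x.length))) (a b : V)
    (hR : R T w a b) : R T w' (flipMap z σ a) (flipMap z σ b) := by
  rcases a with n | ⟨i, m, e⟩ | k <;> rcases b with n' | ⟨i', m', e'⟩ | k' <;>
    simp only [R, flipMap] at hR ⊢
  · exact hR
  · exact hR
  · rcases hR with ⟨h1, h2⟩ | ⟨x, h1, h2⟩
    · left
      rw [hz1 _ h1]
      exact ⟨h1, h2⟩
    · right
      refine ⟨_, hz2 _ _ h1, ?_⟩
      rw [len_sx _ _ (hf _).symm]
      exact h2
  · obtain ⟨h1, h2, h3⟩ := hR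
    subst h1
    subst h2
    exact ⟨rfl, rfl, h3⟩
  · obtain ⟨x, h1, h2, h3⟩ := hR
    refine ⟨_, hz2 _ _ h1, ?_, ?_⟩
    · rw [len_sx _ _ (hf _).symm]
      exact h2
    · rw [len_sx _ _ (hf _).symm, bit_sx _ _ (hf _).symm, hb _ _ (by omega), h3]
      cases bit x i <;> cases σ i <;> cases bit (w x.length) i <;>
        cases bit (w' x.length) i <;> rfl

theorem flip (T : TorsorData) (w w' : ℕ → List Bool) (hw : ∀ l, (w l).length = l)
    (hw' : ∀ l, (w' l).length = l) (σ : ℕ → Bool)
    (h : ∀ l, Lim T.Est (sx (pre σ l) (sx (w l) (w' l)))) :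
    ∃ ψ : GV T w ≃g GV T w', (∀ n, ψ (.P n) = .P n) ∧
      ∀ i m e, ψ (.U i m e) = .U i m (xor e (σ i)) := by
  obtain ⟨f, hfdef⟩ : ∃ f : ℕ → List Bool, f = fun l => sx (pre σ l) (sx (w l) (w' l)) := ⟨_, rfl⟩
  have hl2 : ∀ l, (sx (w l) (w' l)).length = l := fun l => by
    rw [len_sx _ _ ((hw l).trans (hw' l).symm), hw]
  have hf : ∀ l, (f l).length = l := fun l => by
    rw [hfdef]
    show (sx (pre σ l) (sx (w l) (w' l))).length = l
    rw [len_sx _ _ ((len_pre σ l).trans (hl2 l).symm), len_pre]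
  have hb : ∀ l i, i < l → bit (f l) i = xor (σ i) (xor (bit (w l) i) (bit (w' l) i)) := by
    intro l i hi
    rw [hfdef]
    show bit (sx (pre σ l) (sx (w l) (w' l))) i = _
    rw [bit_sx _ _ ((len_pre σ l).trans (hl2 l).symm), bit_pre σ hi,
      bit_sx _ _ ((hw l).trans (hw' l).symm)]
  have hb' : ∀ l i, i < l → bit (f l) i = xor (σ i) (xor (bit (w' l) i) (bit (w l) i)) := by
    intro l i hi
    rw [hb l i hi, Bool.xor_comm (bit (w l) i)]
  have hL : ∀ l, Lim T.Est (f l) := fun l => by
    rw [hfdef]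
    exact h l
  have hz : ∀ k, ∃ k2, (act T k = none → k2 = k) ∧
      ∀ x, act T k = some x → act T k2 = some (sx x (f x.length)) := by
    intro k
    rcases hk : act T k with _ | x
    · exact ⟨k, fun _ => rfl, fun x hx => by simp at hx⟩
    · obtain ⟨k2, hk2⟩ := act_ex T (T.add x (f x.length) (hf _).symm (act_lim T hk) (hL _))
      refine ⟨k2, fun hx => by simp at hx, fun y hy => ?_⟩
      obtain rfl := Option.some.inj hy
      exact hk2
  choose z hz1 hz2 using hz
  have hzz : ∀ k, z (z k) = k := by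
    intro k
    rcases hk : act T k with _ | x
    · rw [hz1 k hk, hz1 k hk]
    · have h1 := hz2 k x hk
      have h2 := hz2 _ _ h1
      have e : sx (sx x (f x.length)) (f (sx x (f x.length)).length) = x := by
        rw [len_sx _ _ (hf _).symm]
        have hl : (sx x (f x.length)).length = x.length := len_sx _ _ (hf _).symm
        refine ext_bit ?_ ?_
        · rw [len_sx _ _ (hl.trans (hf _).symm), hl]
        · intro i _
          rw [bit_sx _ _ (hl.trans (hf _).symm), bit_sx _ _ (hf _).symm]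
          cases bit x i <;> cases bit (f x.length) i <;> rfl
      rw [e] at h2
      exact act_inj T h2 hk
  have hinv : Function.Involutive (flipMap z σ) := by
    intro v
    rcases v with n | ⟨i, m, e⟩ | k
    · rfl
    · simp only [flipMap, V.U.injEq, true_and]
      cases e <;> cases σ i <;> rfl
    · simp only [flipMap, hzz]
  have hfw : ∀ a b, R T w a b → R T w' (flipMap z σ a) (flipMap z σ b) :=
    flip_R T w w' f hf σ hb z hz1 hz2
  have hbw : ∀ a b, R T w' a b → R T w (flipMap z σ a) (flipMap z σ b) :=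
    flip_R T w' w f hf σ hb' z hz1 hz2
  refine ⟨⟨Function.Involutive.toPerm _ hinv, ?_⟩, fun n => rfl, fun i m e => rfl⟩
  intro a b
  constructor
  · intro hab
    have h1 : (GV T w).Adj (flipMap z σ (flipMap z σ a)) (flipMap z σ (flipMap z σ b)) :=
      Or.imp (hbw _ _) (hbw _ _) hab
    rw [hinv, hinv] at h1
    exact h1
  · intro hab
    exact Or.imp (hfw _ _) (hfw _ _) hab

theorem compact (T : TorsorData) : ∃ z : ℕ → Bool, ∀ l, Lim T.Est (sx (pre z l) (T.F l)) := by
  classical
  let U : Ultrafilter ℕ := Filter.hyperfilter ℕ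
  let z : ℕ → Bool := fun c => decide (∀ᶠ t in (U : Filter ℕ), (T.F t).getD c false = true)
  have hz : ∀ c, ∀ᶠ t in (U : Filter ℕ), (T.F t).getD c false = z c := by
    intro c
    by_cases h : ∀ᶠ t in (U : Filter ℕ), (T.F t).getD c false = true
    · have e : z c = true := decide_eq_true h
      rw [e]; exact h
    · have e : z c = false := decide_eq_false h
      rw [e]
      have h2 := Ultrafilter.eventually_not.2 h
      filter_upwards [h2] with t ht
      simpa using ht
  refine ⟨z, fun l => ?_⟩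
  have h1 : ∀ᶠ t in (U : Filter ℕ), ∀ c ∈ Finset.range l, (T.F t).getD c false = z c :=
    (Filter.eventually_all_finset _).2 fun c _ => hz c
  have h2 : ∀ᶠ t in (U : Filter ℕ), l ≤ t :=
    Filter.Eventually.filter_mono Nat.hyperfilter_le_atTop (Filter.eventually_ge_atTop l)
  obtain ⟨t, ht1, ht2⟩ := (h1.and h2).exists
  have h3 : (T.F t).take l = pre z l := by
    refine List.ext_getElem ?_ ?_
    · simp [pre, T.lenF, ht2]
    · intro c hc1 hc2
      have hcl : c < l := by simpa [pre] using hc2
      have hct : c < (T.F t).length := by rw [T.lenF]; omega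
      have h4 := ht1 c (Finset.mem_range.2 hcl)
      rw [List.getD_eq_getElem _ _ hct] at h4
      simp [pre, h4]
  rw [← h3]
  exact T.cohF l t ht2

end Pool.Agent.Helper376.CD
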