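import Pool.Agent.Helper376.CD.Vtx
import Pool.Agent.Helper158.FCD.Interface

/-! The graph of a family of base points. -/

set_option autoImplicit false

namespace Pool.Agent.Helper376.CD

open Pool.Agent.Helper158.FCD

/-- bit of a string -/
def bit (x : List Bool) (i : ℕ) : Bool := x.getD i false

/-- the string of an active label index -/
def act (T : TorsorData) (k : ℕ) : Option (List Bool) :=
  (Encodable.decode k.unpair.1 : Option (List Bool)).bind fun x =>
    if T.Est k.unpair.2 x = true ∧ (k.unpair.2 = 0 ∨ T.Est (k.unpair.2 - 1) x = false)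
    then some x else none

/-- the oriented edge relation -/
def R (T : TorsorData) (w : ℕ → List Bool) : V → V → Prop
  | .P n, .P m => m = n + 1 ∨ m = n + 2
  | .P n, .U i m _ => n = i + m + 1 ∨ (m = 0 ∧ n = i + 5)
  | .P n, .Z k => (act T k = none ∧ (n = k ∨ n = k + 3)) ∨
      ∃ x, act T k = some x ∧ (n = x.length + 2 ∨ n = x.length + 9)
  | .U i m e, .U i' m' e' => i' = i ∧ e' = e ∧ m' = m + 1
  | .U i m e, .Z k => ∃ x, act T k = some x ∧ i + m + 1 = x.length ∧
      e = xor (bit x i) (bit (w x.length) i)
  | _, _ => False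

/-- the graph with base points `w` -/
def GV (T : TorsorData) (w : ℕ → List Bool) : SimpleGraph V where
  Adj a b := R T w a b ∨ R T w b a
  symm := ⟨fun _ _ h => h.symm⟩
  loopless := ⟨fun a h => by rcases a with n | ⟨i, m, e⟩ | k <;> simp [R] at h⟩

/-- the graph on the natural numbers -/
def G (T : TorsorData) (w : ℕ → List Bool) : SimpleGraph ℕ := (GV T w).comap dec

/-- the two versions are isomorphic -/
def gi (T : TorsorData) (w : ℕ → List Bool) : G T w ≃g GV T w where
  toEquiv := vEquiv.symm
  map_rel_iff' := Iff.rfl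

theorem gi_apply (T : TorsorData) (w : ℕ → List Bool) (n : ℕ) : gi T w n = dec n := rfl

theorem gi_symm_apply (T : TorsorData) (w : ℕ → List Bool) (v : V) : (gi T w).symm v = enc v := rfl

end Pool.Agent.Helper376.CD
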