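import Pool.Agent.Helper376.CD.Gr

/-! Computable searches. -/

set_option autoImplicit false

namespace Pool.Agent.Helper376.CD

open Pool.Agent.Helper158.FCD

theorem sc_partrec {α : Type*} [Primcodable α] {p : α → ℕ → Bool} (hp : Computable₂ p) :
    Partrec (fun a => Nat.rfind (fun n => Part.some (p a n))) :=
  Partrec.rfind (p := fun a n => Part.some (p a n)) hp

theorem sc_rfind {p : ℕ → Bool} {n : ℕ} (h : ∀ w, p w = true ↔ w = n) :
    Nat.rfind (fun n => Part.some (p n)) = Part.some n := by
  rw [Part.eq_some_iff, Nat.mem_rfind]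
  refine ⟨?_, ?_⟩
  · rw [(h n).2 rfl]
    exact Part.mem_some _
  · intro m hm
    have h1 : p m = false := by
      rw [← Bool.not_eq_true]
      intro h2
      have h3 := (h m).1 h2
      omega
    rw [h1]
    exact Part.mem_some _

theorem sc_least {α : Type*} [Primcodable α] (f : α → ℕ) (p : α → ℕ → Bool)
    (hp : Computable₂ p) (h : ∀ a, p a (f a) = true) (h' : ∀ a w, p a w = true → f a ≤ w) :
    Computable f := by
  have h1 : Partrec (fun a => (Part.some (f a) : Part ℕ)) := by
    refine (sc_partrec hp).of_eq ?_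
    intro a
    rw [Part.eq_some_iff, Nat.mem_rfind]
    refine ⟨?_, ?_⟩
    · rw [h a]
      exact Part.mem_some _
    · intro m hm
      have h1 : p a m = false := by
        rw [← Bool.not_eq_true]
        intro h2
        have h3 := h' a m h2
        omega
      rw [h1]
      exact Part.mem_some _
  exact h1

theorem search {α : Type*} [Primcodable α] (f : α → ℕ) (p : α → ℕ → Bool) (hp : Computable₂ p)
    (h : ∀ a w, p a w = true ↔ w = f a) : Computable f :=
  sc_least f p hp (fun a => (h a (f a)).2 rfl) (fun a w hw => le_of_eq ((h a w).1 hw).symm)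

theorem search_least {α : Type*} [Primcodable α] (f : α → ℕ) (p : α → ℕ → Bool)
    (hp : Computable₂ p) (h : ∀ a, p a (f a) = true) (h' : ∀ a w, p a w = true → f a ≤ w) :
    Computable f :=
  sc_least f p hp h h'

theorem search_rec {α : Type*} [Primcodable α] (f : ℕ → α → ℕ) (h0 : Computable (f 0))
    (p : (ℕ × α) × ℕ → ℕ → Bool) (hp : Computable₂ p)
    (h : ∀ m a w, p ((m, a), f m a) w = true ↔ w = f (m + 1) a) : Computable₂ f := by
  have hs : Partrec₂ (fun (q : ℕ × α) (r : ℕ × ℕ) =>
      Nat.rfind (fun w => Part.some (p ((r.1, q.2), r.2) w))) := by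
    have e1 : Computable (fun z : (ℕ × α) × (ℕ × ℕ) => ((z.2.1, z.1.2), z.2.2)) :=
      Computable.pair (Computable.pair (Computable.fst.comp Computable.snd)
        (Computable.snd.comp Computable.fst)) (Computable.snd.comp Computable.snd)
    exact (sc_partrec hp).comp e1
  have hg : Partrec (fun q : ℕ × α => (Part.some (f 0 q.2) : Part ℕ)) :=
    h0.comp Computable.snd
  have h1 := Partrec.nat_rec (f := fun q : ℕ × α => q.1) Computable.fst hg hs
  have h2 : Partrec (fun q : ℕ × α => (Part.some (f q.1 q.2) : Part ℕ)) := by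
    refine h1.of_eq ?_
    rintro ⟨m, a⟩
    induction m with
    | zero => rfl
    | succ m ih =>
      show Part.bind _ _ = _
      have ih' := ih
      simp only at ih' ⊢
      rw [ih', Part.bind_some]
      exact sc_rfind (h m a)
  exact h2

theorem search_three (f : ℕ → ℕ) (p : ℕ × ℕ × ℕ → ℕ → Bool) (hp : Computable₂ p)
    (h : ∀ n w, p (f n, f (n + 1), f (n + 2)) w = true ↔ w = f (n + 3)) : Computable f := by
  have hs : Partrec₂ (fun (_ : ℕ) (r : ℕ × (ℕ × ℕ × ℕ)) =>
      (Nat.rfind (fun w => Part.some (p r.2 w))).map (fun w => (r.2.2.1, r.2.2.2, w))) := by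
    have e1 : Partrec (fun z : ℕ × (ℕ × (ℕ × ℕ × ℕ)) =>
        Nat.rfind (fun w => Part.some (p z.2.2 w))) :=
      (sc_partrec hp).comp (Computable.snd.comp Computable.snd)
    have e2 : Computable₂ (fun (z : ℕ × (ℕ × (ℕ × ℕ × ℕ))) (w : ℕ) =>
        (z.2.2.2.1, z.2.2.2.2, w)) := by
      have c1 : Computable (fun y : (ℕ × (ℕ × (ℕ × ℕ × ℕ))) × ℕ => y.1.2.2.2) :=
        Computable.snd.comp (Computable.snd.comp (Computable.snd.comp Computable.fst))
      exact Computable.pair (Computable.fst.comp c1)
        (Computable.pair (Computable.snd.comp c1) Computable.snd)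
    exact Partrec.map e1 e2
  have hg : Partrec (fun _ : ℕ => (Part.some (f 0, f 1, f 2) : Part (ℕ × ℕ × ℕ))) :=
    Computable.const (f 0, f 1, f 2)
  have h1 := Partrec.nat_rec (f := fun n : ℕ => n) Computable.id hg hs
  have h2 : Partrec (fun n : ℕ => (Part.some (f n, f (n + 1), f (n + 2)) : Part (ℕ × ℕ × ℕ))) := by
    refine h1.of_eq ?_
    intro m
    induction m with
    | zero => rfl
    | succ m ih =>
      show Part.bind _ _ = _
      have ih' := ih
      simp only at ih' ⊢
      rw [ih', Part.bind_some]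
      rw [sc_rfind (h m)]
      simp
  have h3 : Computable (fun n : ℕ => (f n, f (n + 1), f (n + 2))) := h2
  exact Computable.fst.comp h3

end Pool.Agent.Helper376.CD
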