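import Pool.Agent.Helper376.CD.CN
import Pool.Agent.Helper376.CD.Search

/-! Labels of a computable copy. -/

set_option autoImplicit false

namespace Pool.Agent.Helper376.CD

open Pool.Agent.Helper158.FCD

theorem label_comp_map (g : ℕ × ℕ → Bool) (hg : Computable g) :
    Computable fun l : ℕ => (List.range l).map fun i => g (l, i) := by
  have h1 : Computable₂ (fun (l : ℕ) (p : ℕ × List Bool) => p.2 ++ [g (l, p.1)]) := by
    have h0 : Computable fun q : ℕ × (ℕ × List Bool) => g (q.1, q.2.1) :=
      hg.comp (Computable.fst.pair (Computable.fst.comp Computable.snd))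
    exact Computable₂.comp (f := fun (l : List Bool) (a : Bool) => l ++ [a])
      Computable.list_concat (Computable.snd.comp Computable.snd) h0
  have h2 := Computable.nat_rec (f := fun l : ℕ => l) (g := fun _ : ℕ => ([] : List Bool))
    Computable.id (Computable.const []) h1
  refine h2.of_eq fun l => ?_
  have h3 : ∀ n : ℕ, (Nat.rec (motive := fun _ => List Bool) []
      (fun y IH => IH ++ [g (l, y)]) n : List Bool) = (List.range n).map fun i => g (l, i) := by
    intro n
    induction n with
    | zero => rfl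
    | succ n ih =>
      rw [List.range_succ, List.map_append, ← ih]
      rfl
  exact h3 l

theorem label_comp (T : TorsorData) (w : ℕ → List Bool) (hw : ∀ l, (w l).length = l)
    (K : SimpleGraph ℕ) (adj : ℕ → ℕ → Bool)
    (hadj : Computable₂ adj) (hK : ∀ a b, adj a b = true ↔ K.Adj a b)
    (φ : GV T w ≃g K) (hP : Computable fun n => φ (.P n)) (τ : ℕ → Bool)
    (hτ : Computable fun q : ℕ × ℕ × Bool => φ (.U q.1 q.2.1 (xor q.2.2 (τ q.1)))) :
    ∃ m : ℕ → List Bool, Computable m ∧ (∀ l, (m l).length = l) ∧
      ∀ l, Lim T.Est (sx (pre τ l) (sx (m l) (w l))) := by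
  have hex : ∀ l, ∃ v, (adj (φ (.P (l + 2))) v && adj (φ (.P (l + 9))) v) = true := by
    intro l
    obtain ⟨k, hk⟩ := act_ex T (T.zero l)
    refine ⟨φ (.Z k), ?_⟩
    rw [Bool.and_eq_true, hK, hK, φ.map_adj_iff, φ.map_adj_iff]
    constructor
    · left
      right
      exact ⟨_, hk, Or.inl (by rw [List.length_replicate])⟩
    · left
      right
      exact ⟨_, hk, Or.inr (by rw [List.length_replicate])⟩
  obtain ⟨c, hc1, hc2⟩ : ∃ c : ℕ → ℕ,
      (∀ l, (adj (φ (.P (l + 2))) (c l) && adj (φ (.P (l + 9))) (c l)) = true) ∧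
      ∀ l v, (adj (φ (.P (l + 2))) v && adj (φ (.P (l + 9))) v) = true → c l ≤ v :=
    ⟨fun l => Nat.find (hex l), fun l => Nat.find_spec (hex l), fun l v hv =>
      Nat.find_min' (hex l) hv⟩
  have hadd : ∀ j : ℕ, Computable fun q : ℕ × ℕ => φ (.P (q.1 + j)) := by
    intro j
    exact hP.comp ((Primrec.nat_add.comp Primrec.fst (Primrec.const j)).to_comp)
  have hcc : Computable c := by
    refine search_least c (fun l v => adj (φ (.P (l + 2))) v && adj (φ (.P (l + 9))) v) ?_ hc1 hc2
    exact Primrec.and.to_comp.comp (hadj.comp (hadd 2) Computable.snd)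
      (hadj.comp (hadd 9) Computable.snd)
  have hZ : ∀ l, ∃ k x, act T k = some x ∧ x.length = l ∧ c l = φ (.Z k) := by
    intro l
    have h1 := hc1 l
    rw [Bool.and_eq_true, hK, hK] at h1
    have h2 : (GV T w).Adj (.P (l + 2)) (φ.symm (c l)) := by
      rw [← φ.map_adj_iff, RelIso.apply_symm_apply]; exact h1.1
    have h3 : (GV T w).Adj (.P (l + 9)) (φ.symm (c l)) := by
      rw [← φ.map_adj_iff, RelIso.apply_symm_apply]; exact h1.2
    obtain ⟨k, x, hk, hx, he⟩ := cn_seven T w h2 h3
    refine ⟨k, x, hk, hx, ?_⟩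
    rw [← he, RelIso.apply_symm_apply]
  have hg : Computable fun q : ℕ × ℕ =>
      adj (c q.1) (φ (.U q.2 (q.1 - 1 - q.2) (xor true (τ q.2)))) := by
    refine hadj.comp (hcc.comp Computable.fst) ?_
    have h1 : Computable fun q : ℕ × ℕ => (q.2, q.1 - 1 - q.2, true) := by
      refine Computable.snd.pair (Computable.pair ?_ (Computable.const true))
      exact (Primrec.nat_sub.comp (Primrec.nat_sub.comp Primrec.fst (Primrec.const 1))
        Primrec.snd).to_comp
    exact hτ.comp h1
  refine ⟨fun l => (List.range l).map fun i =>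
    adj (c l) (φ (.U i (l - 1 - i) (xor true (τ i)))), ?_, ?_, ?_⟩
  · exact label_comp_map _ hg
  · intro l
    rw [List.length_map, List.length_range]
  · intro l
    obtain ⟨k, x, hk, hx, hcl⟩ := hZ l
    obtain ⟨M, hM⟩ : ∃ M : List Bool, M = (List.range l).map fun i =>
      adj (c l) (φ (.U i (l - 1 - i) (xor true (τ i)))) := ⟨_, rfl⟩
    have hMl : M.length = l := by rw [hM, List.length_map, List.length_range]
    have hMb : ∀ i < l, bit M i = xor (xor (bit x i) (bit (w l) i)) (τ i) := by
      intro i hi
      have h1 : bit M i = adj (c l) (φ (.U i (l - 1 - i) (xor true (τ i)))) := by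
        unfold bit
        rw [hM, List.getD_eq_getElem _ _ (by rw [List.length_map, List.length_range]; exact hi),
          List.getElem_map, List.getElem_range]
      have h2 : bit M i = true ↔ xor true (τ i) = xor (bit x i) (bit (w l) i) := by
        rw [h1, hK, hcl, φ.map_adj_iff, adj_Z T w hk (by omega), hx]
      revert h2
      cases bit M i <;> cases τ i <;> cases bit x i <;> cases bit (w l) i <;> simp
    have hlen : (sx M (w l)).length = l := by
      rw [len_sx _ _ (by rw [hMl, hw]), hMl]
    have hlen2 : (pre τ l).length = (sx M (w l)).length := by rw [len_pre, hlen]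
    have hfin : sx (pre τ l) (sx M (w l)) = x := by
      refine ext_bit ?_ ?_
      · rw [len_sx _ _ hlen2, len_pre, hx]
      · intro i hi
        rw [len_sx _ _ hlen2, len_pre] at hi
        rw [bit_sx _ _ hlen2, bit_sx _ _ (by rw [hMl, hw]), bit_pre τ hi, hMb i hi]
        cases τ i <;> cases bit x i <;> cases bit (w l) i <;> rfl
    show Lim T.Est (sx (pre τ l) (sx ((List.range l).map fun i =>
      adj (c l) (φ (.U i (l - 1 - i) (xor true (τ i))))) (w l)))
    rw [← hM, hfin]
    exact act_lim T hk

end Pool.Agent.Helper376.CD
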