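import Pool.Agent.Helper376.CD.CN

/-! Rigidity. -/

set_option autoImplicit false

namespace Pool.Agent.Helper376.CD

open Pool.Agent.Helper158.FCD

theorem adj_PP (T : TorsorData) (w : ℕ → List Bool) (n m : ℕ) :
    (GV T w).Adj (.P n) (.P m) ↔ (m = n + 1 ∨ m = n + 2) ∨ (n = m + 1 ∨ n = m + 2) := Iff.rfl

theorem adj_PU (T : TorsorData) (w : ℕ → List Bool) {n i m : ℕ} {e : Bool}
    (h : n = i + m + 1 ∨ (m = 0 ∧ n = i + 5)) : (GV T w).Adj (.P n) (.U i m e) := Or.inl h

theorem adj_UU (T : TorsorData) (w : ℕ → List Bool) {i m : ℕ} {e : Bool} :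
    (GV T w).Adj (.U i m e) (.U i (m + 1) e) := Or.inl ⟨rfl, rfl, rfl⟩

theorem adj_PZ (T : TorsorData) (w : ℕ → List Bool) {n k : ℕ} {x : List Bool}
    (hx : act T k = some x) (h : n = x.length + 2 ∨ n = x.length + 9) :
    (GV T w).Adj (.P n) (.Z k) := Or.inl (Or.inr ⟨x, hx, h⟩)

theorem spine_map (T : TorsorData) (w w' : ℕ → List Bool) (ψ : GV T w ≃g GV T w') (n : ℕ) :
    ∃ m, ψ (.P n) = .P m := by
  refine triangle T w' (a := ψ (.P n)) (b := ψ (.P (n + 1))) (c := ψ (.P (n + 2))) ?_ ?_ ?_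
  · exact ψ.map_adj_iff.2 ((adj_PP T w _ _).2 (Or.inl (Or.inl rfl)))
  · exact ψ.map_adj_iff.2 ((adj_PP T w _ _).2 (Or.inl (Or.inl rfl)))
  · exact ψ.map_adj_iff.2 ((adj_PP T w _ _).2 (Or.inl (Or.inr rfl)))

theorem spine_fix (T : TorsorData) (w w' : ℕ → List Bool) (ψ : GV T w ≃g GV T w') (n : ℕ) :
    ψ (.P n) = .P n := by
  -- preimages of spine vertices
  have hpre : ∀ m, ∃ a, ψ (.P a) = .P m := by
    intro m
    obtain ⟨a, ha⟩ := spine_map T w' w ψ.symm m
    exact ⟨a, by rw [← ha]; exact ψ.apply_symm_apply _⟩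
  choose g hg using hpre
  have hginj : ∀ a b, g a = g b → a = b := by
    intro a b h
    have h1 := hg a
    rw [h, hg b] at h1
    injection h1.symm
  have hgadj : ∀ a b, ((b = a + 1 ∨ b = a + 2) ∨ (a = b + 1 ∨ a = b + 2)) →
      ((g b = g a + 1 ∨ g b = g a + 2) ∨ (g a = g b + 1 ∨ g a = g b + 2)) := by
    intro a b h
    have h1 : (GV T w').Adj (ψ (.P (g a))) (ψ (.P (g b))) := by
      rw [hg a, hg b]
      exact (adj_PP T w' a b).2 h
    exact (adj_PP T w _ _).1 (ψ.map_adj_iff.1 h1)
  have h0 : ψ (.P 0) = .P 0 := by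
    obtain ⟨J, hJ⟩ := spine_map T w w' ψ 0
    have hgJ : g J = 0 := by
      have h1 := hg J
      rw [← hJ] at h1
      have h2 := ψ.injective h1
      injection h2
    rcases Nat.eq_zero_or_pos J with h | h
    · rw [hJ, h]
    · exfalso
      have a1 := hgadj J (J - 1) (by omega)
      have a2 := hgadj J (J + 1) (by omega)
      have a3 := hgadj J (J + 2) (by omega)
      rw [hgJ] at a1 a2 a3
      have b1 : g (J - 1) ≠ g (J + 1) := fun h' => by have := hginj _ _ h'; omega
      have b2 : g (J - 1) ≠ g (J + 2) := fun h' => by have := hginj _ _ h'; omega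
      have b3 : g (J + 1) ≠ g (J + 2) := fun h' => by have := hginj _ _ h'; omega
      omega
  have hg0 : g 0 = 0 := by
    have h1 := hg 0
    rw [← h0] at h1
    have h2 := ψ.injective h1
    injection h2
  have h1 : ψ (.P 1) = .P 1 := by
    obtain ⟨J, hJ⟩ := spine_map T w w' ψ 1
    have hgJ : g J = 1 := by
      have h1 := hg J
      rw [← hJ] at h1
      have h2 := ψ.injective h1
      injection h2
    have hadj : (GV T w').Adj (ψ (.P 0)) (ψ (.P 1)) :=
      ψ.map_adj_iff.2 ((adj_PP T w _ _).2 (Or.inl (Or.inl rfl)))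
    rw [h0, hJ, adj_PP] at hadj
    have hJ12 : J = 1 ∨ J = 2 := by omega
    rcases hJ12 with h | h
    · rw [hJ, h]
    · exfalso
      subst h
      have a1 := hgadj 2 0 (by omega)
      have a2 := hgadj 2 1 (by omega)
      have a3 := hgadj 2 3 (by omega)
      have a4 := hgadj 2 4 (by omega)
      rw [hgJ] at a1 a2 a3 a4
      have b1 : g 0 ≠ g 1 := fun h' => by have := hginj _ _ h'; omega
      have b2 : g 0 ≠ g 3 := fun h' => by have := hginj _ _ h'; omega
      have b3 : g 0 ≠ g 4 := fun h' => by have := hginj _ _ h'; omega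
      have b4 : g 1 ≠ g 3 := fun h' => by have := hginj _ _ h'; omega
      have b5 : g 1 ≠ g 4 := fun h' => by have := hginj _ _ h'; omega
      have b6 : g 3 ≠ g 4 := fun h' => by have := hginj _ _ h'; omega
      omega
  induction n using Nat.strong_induction_on with
  | _ n ih =>
    rcases n with _ | _ | n
    · exact h0
    · exact h1
    · have e1 : (GV T w').Adj (ψ (.P n)) (ψ (.P (n + 2))) :=
        ψ.map_adj_iff.2 ((adj_PP T w _ _).2 (Or.inl (Or.inr rfl)))
      have e2 : (GV T w').Adj (ψ (.P (n + 1))) (ψ (.P (n + 2))) :=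
        ψ.map_adj_iff.2 ((adj_PP T w _ _).2 (Or.inl (Or.inl rfl)))
      rw [ih n (by omega)] at e1
      rw [ih (n + 1) (by omega)] at e2
      rcases cn_one T w' e1 e2 with h | ⟨k, hk, h⟩
      · exact h
      · exfalso
        have h3 := ih k (by omega)
        have h4 : V.P (n + 2) = V.P k := ψ.injective (h.trans h3.symm)
        injection h4 with h5
        omega

theorem rigid (T : TorsorData) (w w' : ℕ → List Bool) (hw : ∀ l, (w l).length = l)
    (hw' : ∀ l, (w' l).length = l) (ψ : GV T w ≃g GV T w') :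
    ∃ σ : ℕ → Bool, (∀ i, ψ (.U i 0 false) = .U i 0 (σ i)) ∧
      ∀ l, Lim T.Est (sx (pre σ l) (sx (w l) (w' l))) := by
  have hP := spine_fix T w w' ψ
  have hU0 : ∀ i e, ∃ e', ψ (.U i 0 e) = .U i 0 e' := by
    intro i e
    have e1 : (GV T w').Adj (ψ (.P (i + 1))) (ψ (.U i 0 e)) :=
      ψ.map_adj_iff.2 (adj_PU T w (Or.inl rfl))
    have e2 : (GV T w').Adj (ψ (.P (i + 5))) (ψ (.U i 0 e)) :=
      ψ.map_adj_iff.2 (adj_PU T w (Or.inr ⟨rfl, rfl⟩))
    rw [hP] at e1 e2
    rcases cn_four T w' e1 e2 with h | h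
    · exfalso
      have h4 : V.U i 0 e = V.P (i + 3) := ψ.injective (h.trans (hP _).symm)
      exact absurd h4 (by simp)
    · exact h
  choose σ hσ using fun i => hU0 i false
  have hU0' : ∀ i e, ψ (.U i 0 e) = .U i 0 (xor e (σ i)) := by
    intro i e
    cases e with
    | false => rw [hσ i, Bool.false_xor]
    | true =>
      obtain ⟨e', he'⟩ := hU0 i true
      rw [he']
      have hne : e' ≠ σ i := by
        intro h
        rw [h] at he'
        have h4 : V.U i 0 true = V.U i 0 false := ψ.injective (he'.trans (hσ i).symm)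
        exact absurd h4 (by simp)
      have h5 : e' = xor true (σ i) := by
        revert hne
        generalize σ i = b
        cases e' <;> cases b <;> simp
      rw [h5]
  have hU : ∀ m i e, ψ (.U i m e) = .U i m (xor e (σ i)) := by
    intro m
    induction m with
    | zero => exact hU0'
    | succ m ih =>
      intro i e
      have e1 : (GV T w').Adj (ψ (.U i m e)) (ψ (.U i (m + 1) e)) :=
        ψ.map_adj_iff.2 (adj_UU T w)
      have e2 : (GV T w').Adj (ψ (.P (i + m + 2))) (ψ (.U i (m + 1) e)) :=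
        ψ.map_adj_iff.2 (adj_PU T w (Or.inl (by omega)))
      rw [ih] at e1
      rw [hP] at e2
      rcases cn_U T w' e1 e2 with h | h
      · exfalso
        have h4 : V.U i (m + 1) e = V.P (i + m + 1) := ψ.injective (h.trans (hP _).symm)
        exact absurd h4 (by simp)
      · exact h
  refine ⟨σ, hσ, ?_⟩
  intro l
  obtain ⟨k, hk⟩ := act_ex T (T.zero l)
  have hlen : (List.replicate l false).length = l := List.length_replicate
  have e1 : (GV T w').Adj (ψ (.P (l + 2))) (ψ (.Z k)) :=
    ψ.map_adj_iff.2 (adj_PZ T w hk (Or.inl (by rw [hlen])))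
  have e2 : (GV T w').Adj (ψ (.P (l + 9))) (ψ (.Z k)) :=
    ψ.map_adj_iff.2 (adj_PZ T w hk (Or.inr (by rw [hlen])))
  rw [hP] at e1 e2
  obtain ⟨k2, x2, hk2, hl2, hZ⟩ := cn_seven T w' e1 e2
  have hbits : ∀ i < l, bit x2 i = xor (σ i) (xor (bit (w l) i) (bit (w' l) i)) := by
    intro i hi
    have hlm : i + (l - 1 - i) + 1 = l := by omega
    have a1 := (adj_Z T w (i := i) (m := l - 1 - i)
      (e := xor (bit (List.replicate l false) i) (bit (w (List.replicate l false).length) i))
      hk (by rw [hlen, hlm])).2 rfl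
    have a2 := ψ.map_adj_iff.2 a1
    rw [hZ, hU] at a2
    have a3 := (adj_Z T w' hk2 (by rw [hl2, hlm])).1 a2
    have hb0 : bit (List.replicate l false) i = false := by
      unfold bit
      simp
    rw [hb0, hlen, hl2, Bool.false_xor] at a3
    revert a3
    generalize bit x2 i = b1
    generalize bit (w l) i = b2
    generalize bit (w' l) i = b3
    generalize σ i = b4
    cases b1 <;> cases b2 <;> cases b3 <;> cases b4 <;> simp
  have hww : (w l).length = (w' l).length := by rw [hw, hw']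
  have hl1 : (sx (w l) (w' l)).length = l := by rw [len_sx _ _ hww, hw]
  have hl3 : (pre σ l).length = (sx (w l) (w' l)).length := by rw [len_pre, hl1]
  have hfin : sx (pre σ l) (sx (w l) (w' l)) = x2 := by
    apply ext_bit
    · rw [len_sx _ _ hl3, len_pre, hl2]
    · intro i hi
      rw [len_sx _ _ hl3, len_pre] at hi
      rw [bit_sx _ _ hl3, bit_sx _ _ hww, bit_pre σ hi, hbits i hi]
  rw [hfin]
  exact act_lim T hk2

end Pool.Agent.Helper376.CD
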