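import Pool.Agent.Helper376.CD.CN
import Pool.Agent.Helper376.CD.Search

/-! Spine of a computable copy. -/

set_option autoImplicit false

namespace Pool.Agent.Helper376.CD

open Pool.Agent.Helper158.FCD

theorem spine_comp (T : TorsorData) (w : ℕ → List Bool) (K : SimpleGraph ℕ) (adj : ℕ → ℕ → Bool)
    (hadj : Computable₂ adj) (hK : ∀ a b, adj a b = true ↔ K.Adj a b)
    (φ : GV T w ≃g K) : Computable fun n => φ (.P n) := by
  have hp : Computable₂ (fun (q : ℕ × ℕ × ℕ) (v : ℕ) =>
      (adj q.2.1 v && (adj q.2.2 v && !(decide (v = q.1))))) := by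
    have h1 : Computable (fun r : (ℕ × ℕ × ℕ) × ℕ => adj r.1.2.1 r.2) :=
      hadj.comp (Computable.fst.comp (Computable.snd.comp Computable.fst)) Computable.snd
    have h2 : Computable (fun r : (ℕ × ℕ × ℕ) × ℕ => adj r.1.2.2 r.2) :=
      hadj.comp (Computable.snd.comp (Computable.snd.comp Computable.fst)) Computable.snd
    have h3 : Computable (fun r : (ℕ × ℕ × ℕ) × ℕ => decide (r.2 = r.1.1)) :=
      (Primrec.eq.decide.comp Primrec.snd (Primrec.fst.comp Primrec.fst)).to_comp
    have h4 : Computable (fun r : (ℕ × ℕ × ℕ) × ℕ => !(decide (r.2 = r.1.1))) :=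
      Primrec.not.to_comp.comp h3
    exact Primrec.and.to_comp.comp h1 (Primrec.and.to_comp.comp h2 h4)
  refine search_three (fun n => φ (.P n)) _ hp ?_
  intro n v
  have key : ∀ a : V, adj (φ a) v = true ↔ (GV T w).Adj a (φ.symm v) := by
    intro a
    rw [hK]
    have := φ.map_rel_iff (a := a) (b := φ.symm v)
    rw [φ.apply_symm_apply] at this
    exact this
  simp only [Bool.and_eq_true, Bool.not_eq_true', decide_eq_false_iff_not]
  rw [key, key]
  constructor
  · rintro ⟨h1, h2, h3⟩
    rcases cn_one T w h1 h2 with h | ⟨k, hk, h⟩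
    · rw [← h, φ.apply_symm_apply]
    · exfalso
      have hkn : k = n := by omega
      subst hkn
      apply h3
      rw [← h, φ.apply_symm_apply]
  · intro h
    have hs : φ.symm v = V.P (n + 3) := by rw [h, φ.symm_apply_apply]
    rw [hs]
    refine ⟨Or.inl (Or.inr (by ring)), Or.inl (Or.inl (by ring)), ?_⟩
    rw [h]
    intro h5
    have h6 := φ.injective h5
    have h7 := V.P.inj h6
    omega

theorem rc_and {α : Type*} [Primcodable α] {f g : α → Bool} (hf : Computable f)
    (hg : Computable g) : Computable (fun a => f a && g a) :=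
  Primrec.and.to_comp.comp hf hg

theorem rc_ne {α : Type*} [Primcodable α] {f g : α → ℕ} (hf : Computable f)
    (hg : Computable g) : Computable (fun a => !decide (f a = g a)) := by
  have h1 : Computable (fun q : ℕ × ℕ => !decide (q.1 = q.2)) :=
    (Primrec.not.comp (Primrec.eq.decide.comp Primrec.fst Primrec.snd)).to_comp
  exact h1.comp (Computable.pair hf hg)

theorem rc_addc {α : Type*} [Primcodable α] {f : α → ℕ} (hf : Computable f) (k : ℕ) :
    Computable (fun a => f a + k) := by
  have h1 : Computable (fun n : ℕ => n + k) :=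
    (Primrec.nat_add.comp Primrec.id (Primrec.const k)).to_comp
  exact h1.comp hf

theorem rc_add {α : Type*} [Primcodable α] {f g : α → ℕ} (hf : Computable f)
    (hg : Computable g) : Computable (fun a => f a + g a) := by
  have h1 : Computable (fun q : ℕ × ℕ => q.1 + q.2) :=
    (Primrec.nat_add.comp Primrec.fst Primrec.snd).to_comp
  exact h1.comp (Computable.pair hf hg)

theorem ribbon_comp (T : TorsorData) (w : ℕ → List Bool) (K : SimpleGraph ℕ) (adj : ℕ → ℕ → Bool)
    (hadj : Computable₂ adj) (hK : ∀ a b, adj a b = true ↔ K.Adj a b)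
    (φ : GV T w ≃g K) : ∃ τ : ℕ → Bool,
      Computable fun q : ℕ × ℕ × Bool => φ (.U q.1 q.2.1 (xor q.2.2 (τ q.1))) := by
  have hP := spine_comp T w K adj hadj hK φ
  have hinj : ∀ a b, φ a = φ b ↔ a = b := fun a b => φ.injective.eq_iff
  have had : ∀ a b, adj (φ a) (φ b) = true ↔ (GV T w).Adj a b := by
    intro a b
    rw [hK]
    exact φ.map_adj_iff
  let c : ℕ → ℕ → Bool := fun i v =>
    (adj (φ (.P (i + 1))) v && adj (φ (.P (i + 5))) v) && !decide (v = φ (.P (i + 3)))
  have hc : Computable₂ c := by
    have h1 : Computable (fun q : ℕ × ℕ => adj (φ (.P (q.1 + 1))) q.2) :=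
      hadj.comp (hP.comp (rc_addc Computable.fst 1)) Computable.snd
    have h2 : Computable (fun q : ℕ × ℕ => adj (φ (.P (q.1 + 5))) q.2) :=
      hadj.comp (hP.comp (rc_addc Computable.fst 5)) Computable.snd
    have h3 : Computable (fun q : ℕ × ℕ => !decide (q.2 = φ (.P (q.1 + 3)))) :=
      rc_ne Computable.snd (hP.comp (rc_addc Computable.fst 3))
    exact (rc_and (rc_and h1 h2) h3).to₂
  have hcs : ∀ i v, c i v = true ↔ (v = φ (.U i 0 false) ∨ v = φ (.U i 0 true)) := by
    intro i v
    obtain ⟨b, rfl⟩ := φ.surjective v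
    show ((adj (φ (.P (i + 1))) (φ b) && adj (φ (.P (i + 5))) (φ b)) &&
      !decide (φ b = φ (.P (i + 3)))) = true ↔ _
    rw [Bool.and_eq_true, Bool.and_eq_true, had, had, Bool.not_eq_true', decide_eq_false_iff_not,
      hinj, hinj, hinj]
    constructor
    · rintro ⟨⟨h1, h2⟩, h3⟩
      rcases cn_four T w h1 h2 with h | ⟨e, h⟩
      · exact absurd h h3
      · cases e
        · exact Or.inl h
        · exact Or.inr h
    · rintro (rfl | rfl)
      · refine ⟨⟨Or.inl (Or.inl rfl), Or.inl (Or.inr ⟨rfl, rfl⟩)⟩, ?_⟩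
        intro h; cases h
      · refine ⟨⟨Or.inl (Or.inl rfl), Or.inl (Or.inr ⟨rfl, rfl⟩)⟩, ?_⟩
        intro h; cases h
  let τ : ℕ → Bool := fun i => decide (φ (.U i 0 true) < φ (.U i 0 false))
  have hlo : Computable (fun i => φ (.U i 0 (τ i))) := by
    refine search_least _ c hc ?_ ?_
    · intro i
      rw [hcs]
      cases τ i
      · exact Or.inl rfl
      · exact Or.inr rfl
    · intro i v hv
      rw [hcs] at hv
      have hτ : τ i = decide (φ (.U i 0 true) < φ (.U i 0 false)) := rfl
      by_cases h : φ (.U i 0 true) < φ (.U i 0 false)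
      · rw [decide_eq_true h] at hτ
        rw [hτ]
        rcases hv with rfl | rfl
        · exact h.le
        · exact le_rfl
      · rw [decide_eq_false h] at hτ
        rw [hτ]
        rcases hv with rfl | rfl
        · exact le_rfl
        · exact not_lt.1 h
  have hhi : Computable (fun i => φ (.U i 0 (!τ i))) := by
    refine search _ (fun i v => c i v && !decide (v = φ (.U i 0 (τ i)))) ?_ ?_
    · have h1 : Computable (fun q : ℕ × ℕ => !decide (q.2 = φ (.U q.1 0 (τ q.1)))) :=
        rc_ne Computable.snd (hlo.comp Computable.fst)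
      have h2 : Computable (fun q : ℕ × ℕ => c q.1 q.2) := hc
      exact (rc_and h2 h1).to₂
    · intro i v
      rw [Bool.and_eq_true, hcs, Bool.not_eq_true', decide_eq_false_iff_not]
      have hne : φ (.U i 0 false) ≠ φ (.U i 0 true) := by
        intro h
        rw [hinj] at h
        cases h
      cases hτ : τ i
      · constructor
        · rintro ⟨h | h, h2⟩
          · exact absurd h h2
          · exact h
        · intro h
          have h' : v = φ (.U i 0 true) := h
          exact ⟨Or.inr h', by rw [h']; exact hne.symm⟩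
      · constructor
        · rintro ⟨h | h, h2⟩
          · exact h
          · exact absurd h h2
        · intro h
          have h' : v = φ (.U i 0 false) := h
          exact ⟨Or.inl h', by rw [h']; exact hne⟩
  let f : ℕ → ℕ × Bool → ℕ := fun m a => φ (.U a.1 m (xor a.2 (τ a.1)))
  have hf0 : Computable (f 0) := by
    have h1 : Computable (fun a : ℕ × Bool =>
        bif a.2 then φ (.U a.1 0 (!τ a.1)) else φ (.U a.1 0 (τ a.1))) :=
      Computable.cond Computable.snd (hhi.comp Computable.fst) (hlo.comp Computable.fst)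
    refine h1.of_eq ?_
    rintro ⟨i, e⟩
    cases e
    · show φ (.U i 0 (τ i)) = φ (.U i 0 (xor false (τ i)))
      rw [Bool.false_xor]
    · show φ (.U i 0 (!τ i)) = φ (.U i 0 (xor true (τ i)))
      rw [Bool.true_xor]
  have hf : Computable₂ f := by
    refine search_rec f hf0 (fun x v => (adj x.2 v && adj (φ (.P (x.1.2.1 + x.1.1 + 2))) v) &&
      !decide (v = φ (.P (x.1.2.1 + x.1.1 + 1)))) ?_ ?_
    · have hi : Computable (fun q : ((ℕ × (ℕ × Bool)) × ℕ) × ℕ => q.1.1.2.1 + q.1.1.1) :=
        rc_add (Computable.fst.comp (Computable.snd.comp (Computable.fst.comp Computable.fst)))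
          (Computable.fst.comp (Computable.fst.comp Computable.fst))
      have h1 : Computable (fun q : ((ℕ × (ℕ × Bool)) × ℕ) × ℕ => adj q.1.2 q.2) :=
        hadj.comp (Computable.snd.comp Computable.fst) Computable.snd
      have h2 : Computable (fun q : ((ℕ × (ℕ × Bool)) × ℕ) × ℕ =>
          adj (φ (.P (q.1.1.2.1 + q.1.1.1 + 2))) q.2) :=
        hadj.comp (hP.comp (rc_addc hi 2)) Computable.snd
      have h3 : Computable (fun q : ((ℕ × (ℕ × Bool)) × ℕ) × ℕ =>
          !decide (q.2 = φ (.P (q.1.1.2.1 + q.1.1.1 + 1)))) :=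
        rc_ne Computable.snd (hP.comp (rc_addc hi 1))
      exact (rc_and (rc_and h1 h2) h3).to₂
    · rintro m ⟨i, e⟩ v
      obtain ⟨b, rfl⟩ := φ.surjective v
      show ((adj (φ (.U i m (xor e (τ i)))) (φ b) && adj (φ (.P (i + m + 2))) (φ b)) &&
        !decide (φ b = φ (.P (i + m + 1)))) = true ↔ φ b = φ (.U i (m + 1) (xor e (τ i)))
      rw [Bool.and_eq_true, Bool.and_eq_true, had, had, Bool.not_eq_true',
        decide_eq_false_iff_not, hinj, hinj]
      constructor
      · rintro ⟨⟨h1, h2⟩, h3⟩
        rcases cn_U T w h1 h2 with h | h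
        · exact absurd h h3
        · exact h
      · rintro rfl
        refine ⟨⟨Or.inl ⟨rfl, rfl, rfl⟩, Or.inl (Or.inl rfl)⟩, ?_⟩
        intro h; cases h
  refine ⟨τ, ?_⟩
  have h1 : Computable (fun q : ℕ × ℕ × Bool => f q.2.1 (q.1, q.2.2)) :=
    hf.comp (Computable.fst.comp Computable.snd)
      (Computable.pair Computable.fst (Computable.snd.comp Computable.snd))
  exact h1

end Pool.Agent.Helper376.CD
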