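import Pool.Agent.Helper376.CD.CN
import Pool.Agent.Helper376.CD.Search

/-! Computable isomorphisms. -/

set_option autoImplicit false

namespace Pool.Agent.Helper376.CD

open Pool.Agent.Helper158.FCD

/-- a Boolean loop -/
theorem comp_of_static_loop (f : ℕ → Bool) (n : ℕ) :
    (Nat.rec (motive := fun _ => Bool) true (fun i b => b && f i) n) = true ↔
      ∀ i < n, f i = true := by
  induction n with
  | zero => simp
  | succ n ih =>
    show ((Nat.rec (motive := fun _ => Bool) true (fun i b => b && f i) n) && f n) = true ↔ _
    rw [Bool.and_eq_true, ih]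
    constructor
    · rintro ⟨h1, h2⟩ i hi
      rcases Nat.lt_succ_iff_lt_or_eq.mp hi with h | h
      · exact h1 i h
      · rw [h]; exact h2
    · intro h
      exact ⟨fun i hi => h i (Nat.lt_succ_of_lt hi), h n (Nat.lt_succ_self n)⟩

/-- an isomorphism which is computable on the spine and the ribbons is computable -/
theorem comp_of_static (T : TorsorData) (m : ℕ → List Bool) (hm : Computable m)
    (hml : ∀ l, (m l).length = l) (K : SimpleGraph ℕ) (adj : ℕ → ℕ → Bool)
    (hadj : Computable₂ adj) (hK : ∀ a b, adj a b = true ↔ K.Adj a b)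
    (ψ : GV T m ≃g K) (hP : Computable fun n => ψ (.P n))
    (hU : Computable fun q : ℕ × ℕ × Bool => ψ (.U q.1 q.2.1 q.2.2)) :
    Computable (fun v => ψ v) := by
  -- the main part: the label vertices
  have hZ : Computable (fun k => ψ (.Z k)) := by
    -- ingredients
    have hlen : Computable (List.length : List Bool → ℕ) := Primrec.list_length.to_comp
    have hbit : Computable₂ (fun (x : List Bool) (i : ℕ) => bit x i) :=
      (Primrec.list_getD false).to_comp
    have hand : Computable₂ and := Primrec.and.to_comp
    have hnot : Computable not := Primrec.not.to_comp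
    have hxor : Computable₂ xor := (Primrec.dom_bool₂ xor).to_comp
    have hsub : Computable₂ (fun a b : ℕ => a - b) := Primrec.nat_sub.to_comp
    have hadd : ∀ c : ℕ, Computable (fun a : ℕ => a + c) := fun c =>
      (Primrec.nat_add.comp Primrec.id (Primrec.const c)).to_comp
    have heq : Computable₂ (fun a b : ℕ => decide (a = b)) := Primrec.eq.decide.to_comp
    -- one bit
    let B : List Bool × ℕ → ℕ → Bool := fun a i =>
      adj a.2 (ψ (.U i (a.1.length - 1 - i) (xor (bit a.1 i) (bit (m a.1.length) i))))
    have hB : Computable₂ B := by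
      have c1 : Computable (fun q : (List Bool × ℕ) × ℕ => q.1.1) :=
        Computable.fst.comp Computable.fst
      have c2 : Computable (fun q : (List Bool × ℕ) × ℕ => q.1.2) :=
        Computable.snd.comp Computable.fst
      have c3 : Computable (fun q : (List Bool × ℕ) × ℕ => q.2) := Computable.snd
      have c4 : Computable (fun q : (List Bool × ℕ) × ℕ => q.1.1.length) := hlen.comp c1
      have c5 : Computable (fun q : (List Bool × ℕ) × ℕ => q.1.1.length - 1 - q.2) :=
        hsub.comp (hsub.comp c4 (Computable.const 1)) c3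
      have c6 : Computable (fun q : (List Bool × ℕ) × ℕ =>
          xor (bit q.1.1 q.2) (bit (m q.1.1.length) q.2)) :=
        hxor.comp (hbit.comp c1 c3) (hbit.comp (hm.comp c4) c3)
      exact hadj.comp c2 (hU.comp (Computable.pair c3 (Computable.pair c5 c6)))
    let A : List Bool × ℕ → Bool := fun a =>
      Nat.rec (motive := fun _ => Bool) true (fun i b => b && B a i) a.1.length
    have hA : Computable A := by
      refine Computable.nat_rec (f := fun a : List Bool × ℕ => a.1.length)
        (g := fun _ : List Bool × ℕ => true)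
        (h := fun (a : List Bool × ℕ) (q : ℕ × Bool) => q.2 && B a q.1)
        (hlen.comp Computable.fst) (Computable.const true) ?_
      exact hand.comp (Computable.snd.comp Computable.snd)
        (hB.comp Computable.fst (Computable.fst.comp Computable.snd))
    let p0 : ℕ × ℕ → Bool := fun q =>
      (adj (ψ (.P q.1)) q.2 && adj (ψ (.P (q.1 + 3))) q.2) &&
        (!(decide (q.2 = ψ (.P (q.1 + 1)))) && !(decide (q.2 = ψ (.P (q.1 + 2)))))
    have hp0 : Computable p0 := by
      refine hand.comp (hand.comp (hadj.comp (hP.comp Computable.fst) Computable.snd)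
        (hadj.comp (hP.comp ((hadd 3).comp Computable.fst)) Computable.snd))
        (hand.comp (hnot.comp (heq.comp Computable.snd (hP.comp ((hadd 1).comp Computable.fst))))
        (hnot.comp (heq.comp Computable.snd (hP.comp ((hadd 2).comp Computable.fst)))))
    let p1 : ℕ × ℕ → List Bool → Bool := fun q x =>
      (adj (ψ (.P (x.length + 2))) q.2 && adj (ψ (.P (x.length + 9))) q.2) && A (x, q.2)
    have hp1 : Computable₂ p1 := by
      have d1 : Computable (fun r : (ℕ × ℕ) × List Bool => r.2) := Computable.snd
      have d2 : Computable (fun r : (ℕ × ℕ) × List Bool => r.1.2) :=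
        Computable.snd.comp Computable.fst
      exact hand.comp (hand.comp (hadj.comp (hP.comp ((hadd 2).comp (hlen.comp d1))) d2)
        (hadj.comp (hP.comp ((hadd 9).comp (hlen.comp d1))) d2))
        (hA.comp (Computable.pair d1 d2))
    let p : ℕ → ℕ → Bool := fun k v => Option.casesOn (act T k) (p0 (k, v)) (p1 (k, v))
    have hp : Computable₂ p :=
      Computable.option_casesOn (o := fun q : ℕ × ℕ => act T q.1) (f := p0) (g := p1)
        ((act_comp T).comp Computable.fst) hp0 hp1
    refine search (fun k => ψ (.Z k)) p hp ?_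
    intro k v
    -- transfer of adjacency
    have htr : ∀ a b : V, adj (ψ a) (ψ b) = true ↔ (GV T m).Adj a b := fun a b => by
      rw [hK, ψ.map_adj_iff]
    obtain ⟨c, rfl⟩ := ψ.surjective v
    have hinj : ∀ a b : V, ψ a = ψ b ↔ a = b := fun a b => ψ.injective.eq_iff
    cases hact : act T k with
    | none =>
      have hpk : p k (ψ c) = p0 (k, ψ c) := by
        simp only [p]
        rw [hact]
      rw [hpk]
      show ((adj (ψ (.P k)) (ψ c) && adj (ψ (.P (k + 3))) (ψ c)) &&
        (!(decide (ψ c = ψ (.P (k + 1)))) && !(decide (ψ c = ψ (.P (k + 2)))))) = true ↔ ψ c = ψ (.Z k)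
      rw [Bool.and_eq_true, Bool.and_eq_true, Bool.and_eq_true, htr, htr]
      simp only [hinj, Bool.not_eq_true', decide_eq_false_iff_not]
      constructor
      · rintro ⟨⟨h1, h2⟩, h3, h4⟩
        rcases cn_three T m h1 h2 with h | h | ⟨-, h⟩
        · exact absurd h h3
        · exact absurd h h4
        · exact h
      · rintro rfl
        refine ⟨⟨Or.inl (Or.inl ⟨hact, Or.inl rfl⟩), Or.inl (Or.inl ⟨hact, Or.inr rfl⟩)⟩, ?_, ?_⟩
        · intro h; cases h
        · intro h; cases h
    | some x =>
      have hpk : p k (ψ c) = p1 (k, ψ c) x := by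
        simp only [p]
        rw [hact]
      rw [hpk]
      show ((adj (ψ (.P (x.length + 2))) (ψ c) && adj (ψ (.P (x.length + 9))) (ψ c)) &&
        A (x, ψ c)) = true ↔ ψ c = ψ (.Z k)
      have hAx : A (x, ψ c) = true ↔ ∀ i < x.length, B (x, ψ c) i = true :=
        comp_of_static_loop _ _
      rw [Bool.and_eq_true, Bool.and_eq_true, htr, htr, hinj, hAx]
      have hBx : ∀ i, B (x, ψ c) i = true ↔
          (GV T m).Adj c (.U i (x.length - 1 - i) (xor (bit x i) (bit (m x.length) i))) := by
        intro i
        exact htr _ _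
      simp only [hBx]
      constructor
      · rintro ⟨⟨h1, h2⟩, h3⟩
        obtain ⟨k2, x2, hk2, hl2, rfl⟩ := cn_seven T m h1 h2
        have hxx : x = x2 := by
          apply ext_bit hl2.symm
          intro i hi
          have h4 := h3 i hi
          rw [adj_Z T m hk2 (by omega), hl2] at h4
          revert h4
          cases bit x i <;> cases bit x2 i <;> cases bit (m x.length) i <;> simp
        subst hxx
        rw [act_inj T hact hk2]
      · rintro rfl
        refine ⟨⟨Or.inl (Or.inr ⟨x, hact, Or.inl rfl⟩), Or.inl (Or.inr ⟨x, hact, Or.inr rfl⟩)⟩, ?_⟩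
        intro i hi
        rw [adj_Z T m hact (by omega)]
  refine cases_comp (f := fun v : V => v) (gP := fun _ n => ψ (.P n))
    (gU := fun _ q => ψ (.U q.1 q.2.1 q.2.2)) (gZ := fun _ k => ψ (.Z k)) Computable.id
    (hP.comp Computable.snd) (hU.comp Computable.snd) (hZ.comp Computable.snd) ?_ ?_ ?_
  · intro a n h; rw [h]
  · intro a i m' e h; rw [h]
  · intro a k h; rw [h]

end Pool.Agent.Helper376.CD
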