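import Pool.Agent.Helper376.CD.Loc
import Pool.Agent.Helper376.CD.Rigid
import Pool.Agent.Helper376.CD.Flip
import Pool.Agent.Helper376.CD.AdjComp
import Pool.Agent.Helper376.CD.Spine
import Pool.Agent.Helper376.CD.Label
import Pool.Agent.Helper376.CD.Stat

/-! The graph theorem. -/

set_option autoImplicit false

namespace Pool.Agent.Helper376.CD

open Pool.Agent.Helper158.FCD

theorem copy (T : TorsorData) (w : ℕ → List Bool) (hw : ∀ l, (w l).length = l)
    (K : SimpleGraph ℕ) (hK : ComputablePred fun p : ℕ × ℕ => K.Adj p.1 p.2)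
    (hφ : Nonempty (GV T w ≃g K)) :
    ∃ m : ℕ → List Bool, Computable m ∧ (∀ l, (m l).length = l) ∧
      ∃ ψ : GV T m ≃g K, Computable (fun v => ψ v) := by
  obtain ⟨φ⟩ := hφ
  obtain ⟨hd, hc⟩ := hK
  have hadj : Computable₂ (fun a b : ℕ => @decide (K.Adj a b) (hd (a, b))) := hc
  have hK' : ∀ a b, (fun a b : ℕ => @decide (K.Adj a b) (hd (a, b))) a b = true ↔ K.Adj a b := by
    intro a b
    simp
  have hP := spine_comp T w K _ hadj hK' φ
  obtain ⟨τ, hτ⟩ := ribbon_comp T w K _ hadj hK' φ
  obtain ⟨m, hm, hml, hlim⟩ := label_comp T w hw K _ hadj hK' φ hP τ hτ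
  obtain ⟨θ, h1, h2⟩ := flip T m w hml hw τ hlim
  refine ⟨m, hm, hml, θ.trans φ, ?_⟩
  refine comp_of_static T m hm hml K _ hadj hK' (θ.trans φ) ?_ ?_
  · refine hP.of_eq ?_
    intro n
    show φ (.P n) = φ (θ (.P n))
    rw [h1]
  · refine hτ.of_eq ?_
    intro q
    show φ _ = φ (θ _)
    rw [h2]

theorem G_adj_comp (T : TorsorData) (w : ℕ → List Bool) (hw : Computable w) :
    ∃ adj : ℕ → ℕ → Bool, Computable₂ adj ∧ ∀ a b, adj a b = true ↔ (G T w).Adj a b := by
  obtain ⟨f, hf, h⟩ := adj_comp T w hw
  refine ⟨fun a b => f (dec a) (dec b), hf.comp (dec_comp.comp Computable.fst)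
    (dec_comp.comp Computable.snd), ?_⟩
  intro a b
  exact h _ _

theorem G_pred (T : TorsorData) (w : ℕ → List Bool) (hw : Computable w) :
    ComputablePred fun p : ℕ × ℕ => (G T w).Adj p.1 p.2 := by
  obtain ⟨f, hf, h⟩ := G_adj_comp T w hw
  refine ⟨fun p => decidable_of_iff _ (h p.1 p.2), ?_⟩
  refine Computable.of_eq (f := fun p : ℕ × ℕ => f p.1 p.2) hf ?_
  intro p
  have := h p.1 p.2
  by_cases hp : (G T w).Adj p.1 p.2
  · simp [hp, this.2 hp]
  · have h3 : f p.1 p.2 = false := by
      rw [← Bool.not_eq_true]; exact fun e => hp (this.1 e)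
    simp [hp, h3]

/-- a computable flip -/
theorem flip_comp (T : TorsorData) (w w' : ℕ → List Bool) (hw : ∀ l, (w l).length = l)
    (hw' : ∀ l, (w' l).length = l) (cw : Computable w) (cw' : Computable w')
    (σ : ℕ → Bool) (hσ : Computable σ)
    (h : ∀ l, Lim T.Est (sx (pre σ l) (sx (w l) (w' l)))) :
    ∃ ψ : GV T w ≃g G T w', Computable (fun v => ψ v) := by
  obtain ⟨θ, h1, h2⟩ := flip T w w' hw hw' σ h
  obtain ⟨f, hf, hf'⟩ := G_adj_comp T w' cw'
  refine ⟨θ.trans (gi T w').symm, ?_⟩
  refine comp_of_static T w cw hw (G T w') f hf hf' _ ?_ ?_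
  · refine (enc_comp.comp P_comp).of_eq ?_
    intro n
    show enc (.P n) = enc (θ (.P n))
    rw [h1]
  · have c0 : Computable fun q : ℕ × ℕ × Bool => xor q.2.2 (σ q.1) :=
      (Primrec.dom_bool₂ xor).to_comp.comp (Computable.snd.comp Computable.snd)
        (hσ.comp Computable.fst)
    have c1 : Computable fun q : ℕ × ℕ × Bool => (q.1, q.2.1, xor q.2.2 (σ q.1)) :=
      Computable.pair Computable.fst (Computable.pair (Computable.fst.comp Computable.snd) c0)
    have c2 := U_comp.comp c1
    have c3 := enc_comp.comp c2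
    refine c3.of_eq ?_
    intro q
    show _ = enc (θ _)
    rw [h2]

/-- the inverse of a computable bijection is computable -/
theorem inv_comp {ψ : V → ℕ} (hψ : Computable ψ) (g : ℕ → V) (h1 : ∀ n, ψ (g n) = n)
    (h2 : ∀ v, g (ψ v) = v) : Computable g := by
  have : Computable (fun n => enc (g n)) := by
    refine search _ (fun n k => decide (ψ (dec k) = n)) ?_ ?_
    · exact (Primrec.eq.decide.to_comp).comp ((hψ.comp dec_comp).comp Computable.snd) Computable.fst
    · intro a w
      simp only [decide_eq_true_eq]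
      constructor
      · rintro rfl
        rw [h2, enc_dec]
      · rintro rfl
        rw [dec_enc, h1]
  exact (dec_comp.comp this).of_eq (fun n => dec_enc _)

theorem lim_comm (T : TorsorData) {x y : List Bool} (h : Lim T.Est (sx x y)) :
    Lim T.Est (sx y x) := by
  have : sx y x = sx x y := by
    unfold sx
    rw [List.zipWith_comm]
    congr 1
    funext a b
    exact Bool.xor_comm b a
  rwa [this]

/-- base points of a computable copy are coherent -/
theorem coherent (T : TorsorData) (m : ℕ → List Bool) (hm : ∀ l, (m l).length = l)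
    (σ : ℕ → Bool) (h : ∀ l, Lim T.Est (sx (pre σ l) (m l))) :
    ∀ k l, k ≤ l → Lim T.Est (sx ((m l).take k) (m k)) := by
  intro k l hkl
  have a1 := T.restr _ k (h l)
  have a2 := h k
  have e1 : (sx (pre σ l) (m l)).length = l := by
    rw [len_sx _ _ (by rw [len_pre, hm]), len_pre]
  have e2 : (sx (pre σ k) (m k)).length = k := by
    rw [len_sx _ _ (by rw [len_pre, hm]), len_pre]
  have a3 := T.add _ _ (by rw [List.length_take, e1, e2]; omega) a1 a2
  have : sx ((m l).take k) (m k) = sx ((sx (pre σ l) (m l)).take k) (sx (pre σ k) (m k)) := by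
    have l1 : ((m l).take k).length = (m k).length := by
      rw [List.length_take, hm, hm]; omega
    have l2 : ((sx (pre σ l) (m l)).take k).length = (sx (pre σ k) (m k)).length := by
      rw [List.length_take, e1, e2]; omega
    apply ext_bit
    · rw [len_sx _ _ l1, len_sx _ _ l2, List.length_take, List.length_take, hm, e1]
    · intro i hi
      rw [len_sx _ _ l1, List.length_take, hm] at hi
      have hik : i < k := by omega
      have tk : ∀ (y : List Bool), bit (y.take k) i = bit y i := by
        intro y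
        simp [bit, List.getD_eq_getElem?_getD, hik]
      rw [bit_sx _ _ l1, bit_sx _ _ l2, tk, tk, bit_sx _ _ (by rw [len_pre, hm]),
        bit_sx _ _ (by rw [len_pre, hm]), bit_pre σ (by omega), bit_pre σ hik]
      cases σ i <;> cases bit (m l) i <;> cases bit (m k) i <;> rfl
  rwa [this]

/-- zero base points -/
def zz (l : ℕ) : List Bool := List.replicate l false

theorem zz_len (l : ℕ) : (zz l).length = l := by simp [zz]

theorem zz_comp : Computable zz := by
  have : Computable (fun l : ℕ => (List.range l).map fun _ => false) :=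
    (Primrec.list_map Primrec.list_range (Primrec.const false).to₂).to_comp
  refine this.of_eq ?_
  intro l
  simp [zz]

theorem sx_zz (x : List Bool) : sx x (zz x.length) = x := by
  induction x with
  | nil => rfl
  | cons a x ih =>
    simp only [sx, zz, List.length_cons, List.replicate_succ, List.zipWith_cons_cons] at ih ⊢
    rw [ih]; simp

theorem zz_sx (x : List Bool) : sx (zz x.length) x = x := by
  induction x with
  | nil => rfl
  | cons a x ih =>
    simp only [sx, zz, List.length_cons, List.replicate_succ, List.zipWith_cons_cons] at ih ⊢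
    rw [ih]; simp

/-- a computable isomorphism gives a computable flip -/
theorem no_iso (T : TorsorData) (w w' : ℕ → List Bool) (hw : ∀ l, (w l).length = l)
    (hw' : ∀ l, (w' l).length = l) (f : G T w ≃g G T w') (hf : Computable (⇑f : ℕ → ℕ)) :
    ∃ σ : ℕ → Bool, Computable σ ∧ ∀ l, Lim T.Est (sx (pre σ l) (sx (w l) (w' l))) := by
  obtain ⟨σ, h1, h2⟩ := rigid T w w' hw hw' ((gi T w).symm.trans (f.trans (gi T w')))
  refine ⟨σ, ?_, h2⟩
  have c1 : Computable (fun i : ℕ => dec (f (enc (.U i 0 false)))) := by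
    refine dec_comp.comp (hf.comp (enc_comp.comp ?_))
    exact U_comp.comp (Computable.pair Computable.id
      (Computable.pair (Computable.const 0) (Computable.const false)))
  refine cases_comp c1 (gP := fun _ _ => false) (gU := fun _ q => q.2.2) (gZ := fun _ _ => false)
    (Computable.const false) ((Computable.snd.comp Computable.snd).comp Computable.snd)
    (Computable.const false) ?_ ?_ ?_
  · intro i n h
    have := h1 i
    change dec (f (enc (.U i 0 false))) = _ at this
    rw [this] at h
    exact absurd h (by simp)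
  · intro i a b e h
    have := h1 i
    change dec (f (enc (.U i 0 false))) = _ at this
    rw [this] at h
    injection h
  · intro i n h
    have := h1 i
    change dec (f (enc (.U i 0 false))) = _ at this
    rw [this] at h
    exact absurd h (by simp)

theorem s09751_of_torsor (T : TorsorData) :
    ∃ H : SimpleGraph ℕ,
      ComputablePred (fun p : ℕ × ℕ => H.Adj p.1 p.2) ∧
      H.Connected ∧
      (∀ v : ℕ, (H.neighborSet v).Finite) ∧
      ∃ n : ℕ, 2 ≤ n ∧ ∃ G : Fin n → SimpleGraph ℕ,
        (∀ i : Fin n, ComputablePred (fun p : ℕ × ℕ => (G i).Adj p.1 p.2) ∧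
            Nonempty (H ≃g G i)) ∧
        (∀ i j : Fin n, i ≠ j → ∀ f : G i ≃g G j, ¬ Computable (⇑f : ℕ → ℕ)) ∧
        (∀ K : SimpleGraph ℕ, ComputablePred (fun p : ℕ × ℕ => K.Adj p.1 p.2) →
            Nonempty (H ≃g K) →
            ∃ i : Fin n, ∃ f : K ≃g G i, Computable (⇑f : ℕ → ℕ)) := by
  have key : ∀ x : List Bool, ∀ l, x.length = l → sx (zz l) x = x := by
    rintro x l rfl; exact zz_sx x
  have key' : ∀ x : List Bool, ∀ l, x.length = l → sx x (zz l) = x := by
    rintro x l rfl; exact sx_zz x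
  refine ⟨G T zz, G_pred T zz zz_comp, ?_, ?_, 2, le_refl _, ![G T zz, G T T.F], ?_, ?_, ?_⟩
  · exact (gi T zz).symm.connected_iff.1 (conn T zz)
  · intro v
    have h := locfin T zz (dec v)
    have h2 := h.preimage (f := dec) (Set.injOn_of_injective (fun a b hab => by
      rw [← enc_dec a, ← enc_dec b, hab]))
    exact h2
  · intro i
    fin_cases i
    · exact ⟨G_pred T zz zz_comp, ⟨SimpleGraph.Iso.refl⟩⟩
    · refine ⟨G_pred T T.F T.compF, ?_⟩
      obtain ⟨z, hz⟩ := compact T
      obtain ⟨ψ, -, -⟩ := flip T zz T.F zz_len T.lenF z (fun l => by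
        rw [key _ l (T.lenF l)]; exact hz l)
      exact ⟨(gi T zz).trans (ψ.trans (gi T T.F).symm)⟩
  · intro i j hij f hf
    fin_cases i <;> fin_cases j
    · exact hij rfl
    · obtain ⟨σ, h1, h2⟩ := no_iso T zz T.F zz_len T.lenF f hf
      exact T.noniso ⟨σ, h1, fun l => by have := h2 l; rwa [key _ l (T.lenF l)] at this⟩
    · obtain ⟨σ, h1, h2⟩ := no_iso T T.F zz T.lenF zz_len f hf
      exact T.noniso ⟨σ, h1, fun l => by have := h2 l; rwa [key' _ l (T.lenF l)] at this⟩
    · exact hij rfl
  · intro K hK hφ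
    obtain ⟨φ⟩ := hφ
    obtain ⟨m, cm, hm, ψ, cψ⟩ := copy T zz zz_len K hK ⟨(gi T zz).symm.trans φ⟩
    obtain ⟨σ, -, hσ⟩ := rigid T m zz hm zz_len (ψ.trans (φ.symm.trans (gi T zz)))
    have coh := coherent T m hm σ (fun l => by
      have := hσ l; rwa [key' _ l (hm l)] at this)
    obtain ⟨a, ca, ha⟩ := T.dich m cm hm coh
    have cinv : Computable (fun n => ψ.symm n) :=
      inv_comp cψ _ (fun n => ψ.apply_symm_apply n) (fun v => ψ.symm_apply_apply v)
    rcases ha with ha | ha
    · obtain ⟨θ, cθ⟩ := flip_comp T m zz hm zz_len cm zz_comp a ca (fun l => by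
        rw [key' _ l (hm l)]; exact ha l)
      exact ⟨0, ψ.symm.trans θ, cθ.comp cinv⟩
    · obtain ⟨θ, cθ⟩ := flip_comp T m T.F hm T.lenF cm T.compF a ca ha
      exact ⟨1, ψ.symm.trans θ, cθ.comp cinv⟩

end Pool.Agent.Helper376.CD
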