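import Pool.Agent.Helper376.CD.Gr

/-! Strings and labels. -/

set_option autoImplicit false

namespace Pool.Agent.Helper376.CD

open Pool.Agent.Helper158.FCD

theorem bit_sx (x y : List Bool) (h : x.length = y.length) (i : ℕ) :
    bit (sx x y) i = xor (bit x i) (bit y i) := by
  induction x generalizing y i with
  | nil =>
    have : y = [] := List.length_eq_zero_iff.mp h.symm
    subst this
    simp [bit, sx]
  | cons a x ih =>
    cases y with
    | nil => simp at h
    | cons b y =>
      cases i with
      | zero => simp [bit, sx]
      | succ i =>
        have h' : x.length = y.length := by simpa using h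
        have := ih y h' i
        simpa [bit, sx] using this

theorem len_sx (x y : List Bool) (h : x.length = y.length) : (sx x y).length = x.length := by
  simp [sx, List.length_zipWith, h]

theorem len_pre (a : ℕ → Bool) (l : ℕ) : (pre a l).length = l := by
  simp [pre]

theorem bit_pre (a : ℕ → Bool) {l i : ℕ} (h : i < l) : bit (pre a l) i = a i := by
  unfold bit pre
  rw [List.getD_eq_getElem _ _ (by simpa using h)]
  simp

theorem ext_bit {x y : List Bool} (h : x.length = y.length)
    (hb : ∀ i < x.length, bit x i = bit y i) : x = y := by
  apply List.ext_getElem h
  intro i h1 h2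
  have h3 := hb i h1
  unfold bit at h3
  rwa [List.getD_eq_getElem _ _ h1, List.getD_eq_getElem _ _ h2] at h3

theorem act_bool (n : ℕ) (b : Bool) (h : (Encodable.decode n : Option Bool) = some b) :
    Encodable.encode b = n := by
  rcases n with _ | _ | n
  · rw [Encodable.decode_zero] at h
    simp only [Option.some.injEq] at h
    subst h
    rfl
  · rw [show (0 + 1 : ℕ) = 1 from rfl, Encodable.decode_one] at h
    simp only [Option.some.injEq] at h
    subst h
    rfl
  · rw [Encodable.decode_ge_two _ (by omega)] at h
    exact absurd h (by simp)

theorem act_list : ∀ (n : ℕ) (x : List Bool),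
    (Encodable.decode n : Option (List Bool)) = some x → Encodable.encode x = n := by
  intro n
  induction n using Nat.strong_induction_on with
  | _ n ih =>
    intro x h
    rcases n with _ | v
    · rw [Encodable.decode_list_zero] at h
      simp only [Option.some.injEq] at h
      subst h
      rfl
    · rw [Encodable.decode_list_succ] at h
      rcases h1 : (Encodable.decode v.unpair.1 : Option Bool) with _ | a
      · rw [h1] at h
        change (none : Option (List Bool)) = some x at h
        exact absurd h (by simp)
      · rcases h2 : (Encodable.decode v.unpair.2 : Option (List Bool)) with _ | l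
        · rw [h1, h2] at h
          change (none : Option (List Bool)) = some x at h
          exact absurd h (by simp)
        · rw [h1, h2] at h
          change some (a :: l) = some x at h
          have h3 : x = a :: l := by
            simpa using h.symm
          subst h3
          rw [Encodable.encode_list_cons, act_bool _ _ h1,
            ih v.unpair.2 (Nat.lt_succ_of_le (Nat.unpair_right_le v)) l h2, Nat.pair_unpair]

theorem act_iff (T : TorsorData) (k : ℕ) (x : List Bool) : act T k = some x ↔
    (Encodable.decode k.unpair.1 : Option (List Bool)) = some x ∧
      (T.Est k.unpair.2 x = true ∧ (k.unpair.2 = 0 ∨ T.Est (k.unpair.2 - 1) x = false)) := by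
  unfold act
  rcases h1 : (Encodable.decode k.unpair.1 : Option (List Bool)) with _ | y
  · simp
  · simp only [Option.bind_some, Option.some.injEq]
    split_ifs with h2
    · constructor
      · intro h
        simp only [Option.some.injEq] at h
        subst h
        exact ⟨rfl, h2⟩
      · rintro ⟨rfl, -⟩
        rfl
    · constructor
      · intro h
        exact absurd h (by simp)
      · rintro ⟨rfl, h⟩
        exact absurd h h2

theorem act_mono (T : TorsorData) (x : List Bool) {s t : ℕ} (hst : s ≤ t)
    (h : T.Est s x = true) : T.Est t x = true := by
  induction t, hst using Nat.le_induction with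
  | base => exact h
  | succ t _ ih => exact T.mono t x ih

theorem act_lim (T : TorsorData) {k : ℕ} {x : List Bool} (h : act T k = some x) : Lim T.Est x :=
  ⟨_, ((act_iff T k x).1 h).2.1⟩

theorem act_ex (T : TorsorData) {x : List Bool} (h : Lim T.Est x) : ∃ k, act T k = some x := by
  classical
  refine ⟨Nat.pair (Encodable.encode x) (Nat.find h), ?_⟩
  rw [act_iff, Nat.unpair_pair]
  refine ⟨Encodable.encodek x, Nat.find_spec h, ?_⟩
  by_cases h0 : Nat.find h = 0
  · exact Or.inl h0
  · right
    have := Nat.find_min h (m := Nat.find h - 1) (by omega)
    simpa using this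

theorem act_inj (T : TorsorData) {k k' : ℕ} {x : List Bool} (h : act T k = some x)
    (h' : act T k' = some x) : k = k' := by
  rw [act_iff] at h h'
  have e1 : k.unpair.1 = k'.unpair.1 := by
    rw [← act_list _ _ h.1, ← act_list _ _ h'.1]
  have e2 : k.unpair.2 = k'.unpair.2 := by
    rcases lt_trichotomy k.unpair.2 k'.unpair.2 with hlt | heq | hlt
    · exfalso
      rcases h'.2.2 with h0 | h0
      · omega
      · rw [act_mono T x (show k.unpair.2 ≤ k'.unpair.2 - 1 by omega) h.2.1] at h0
        exact absurd h0 (by simp)
    · exact heq
    · exfalso
      rcases h.2.2 with h0 | h0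
      · omega
      · rw [act_mono T x (show k'.unpair.2 ≤ k.unpair.2 - 1 by omega) h'.2.1] at h0
        exact absurd h0 (by simp)
  rw [← Nat.pair_unpair k, ← Nat.pair_unpair k', e1, e2]

theorem act_comp (T : TorsorData) : Computable (act T) := by
  have hdec : Computable (fun k : ℕ => (Encodable.decode k.unpair.1 : Option (List Bool))) :=
    Computable.decode.comp (Computable.fst.comp Computable.unpair)
  have hE : Computable (fun p : ℕ × List Bool => T.Est p.1.unpair.2 p.2) :=
    T.compE.comp (Computable.snd.comp (Computable.unpair.comp Computable.fst)) Computable.snd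
  have hE' : Computable (fun p : ℕ × List Bool => T.Est (p.1.unpair.2 - 1) p.2) :=
    T.compE.comp ((Primrec.nat_sub.comp (Primrec.snd.comp Primrec.unpair)
      (Primrec.const 1)).to_comp.comp Computable.fst) Computable.snd
  have h0 : Computable (fun p : ℕ × List Bool => decide (p.1.unpair.2 = 0)) :=
    (Primrec.eq.decide.comp (Primrec.snd.comp Primrec.unpair) (Primrec.const 0)).to_comp.comp
      Computable.fst
  have hb : Computable (fun p : ℕ × List Bool =>
      bif T.Est p.1.unpair.2 p.2 then
        (bif decide (p.1.unpair.2 = 0) then some p.2
          else bif T.Est (p.1.unpair.2 - 1) p.2 then none else some p.2)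
      else none) :=
    Computable.cond hE (Computable.cond h0 (Computable.option_some.comp Computable.snd)
      (Computable.cond hE' (Computable.const none) (Computable.option_some.comp Computable.snd)))
      (Computable.const none)
  refine (Computable.option_bind hdec hb.to₂).of_eq ?_
  intro k
  show (Encodable.decode k.unpair.1 : Option (List Bool)).bind _ =
    (Encodable.decode k.unpair.1 : Option (List Bool)).bind _
  congr 1
  funext x
  by_cases h1 : T.Est k.unpair.2 x = true
  · by_cases h2 : k.unpair.2 = 0
    · simp [h2]
    · cases h3 : T.Est (k.unpair.2 - 1) x <;> simp [h1, h2, h3]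
  · simp [h1]

end Pool.Agent.Helper376.CD
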