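import Pool.Agent.Helper376.CD.Lab

/-! Local finiteness and connectedness. -/

set_option autoImplicit false

namespace Pool.Agent.Helper376.CD

open Pool.Agent.Helper158.FCD

theorem conn (T : TorsorData) (w : ℕ → List Bool) : (GV T w).Connected := by
  have hP : ∀ n, (GV T w).Reachable (V.P 0) (V.P n) := by
    intro n
    induction n with
    | zero => exact SimpleGraph.Reachable.refl _
    | succ n ih =>
      have h : (GV T w).Adj (V.P n) (V.P (n + 1)) := by
        left
        simp [R]
      exact ih.trans h.reachable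
  rw [SimpleGraph.connected_iff_exists_forall_reachable]
  refine ⟨V.P 0, ?_⟩
  intro v
  rcases v with n | ⟨i, m, e⟩ | k
  · exact hP n
  · have h : (GV T w).Adj (V.P (i + m + 1)) (V.U i m e) := by
      left
      simp [R]
    exact (hP _).trans h.reachable
  · rcases h : act T k with _ | x
    · have h2 : (GV T w).Adj (V.P k) (V.Z k) := by
        left
        simp [R, h]
      exact (hP _).trans h2.reachable
    · have h2 : (GV T w).Adj (V.P (x.length + 2)) (V.Z k) := by
        left
        simp [R, h]
      exact (hP _).trans h2.reachable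

/-- a finite set of vertices -/
def locfin_S (T : TorsorData) (N : ℕ) : Set V :=
  {v | (∃ n, n ≤ N ∧ v = .P n) ∨ (∃ i m e, i ≤ N ∧ m ≤ N ∧ v = .U i m e) ∨
    (∃ k, k ≤ N ∧ v = .Z k) ∨ ∃ k x, act T k = some x ∧ x.length ≤ N ∧ v = .Z k}

theorem locfin_fin (T : TorsorData) (N : ℕ) : (locfin_S T N).Finite := by
  have h1 : {v : V | ∃ n, n ≤ N ∧ v = .P n}.Finite := by
    refine ((Set.finite_Iic N).image V.P).subset ?_
    rintro v ⟨n, hn, rfl⟩
    exact ⟨n, hn, rfl⟩
  have h2 : {v : V | ∃ i m e, i ≤ N ∧ m ≤ N ∧ v = .U i m e}.Finite := by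
    refine ((((Set.finite_Iic N).prod (Set.finite_Iic N)).prod
      (Set.finite_univ (α := Bool))).image fun q => V.U q.1.1 q.1.2 q.2).subset ?_
    rintro v ⟨i, m, e, hi, hm, rfl⟩
    exact ⟨((i, m), e), ⟨⟨hi, hm⟩, Set.mem_univ _⟩, rfl⟩
  have h3 : {v : V | ∃ k, k ≤ N ∧ v = .Z k}.Finite := by
    refine ((Set.finite_Iic N).image V.Z).subset ?_
    rintro v ⟨n, hn, rfl⟩
    exact ⟨n, hn, rfl⟩
  have h4 : {k : ℕ | ∃ x, act T k = some x ∧ x.length ≤ N}.Finite := by
    refine Set.Finite.of_finite_image (f := fun k => (act T k).getD []) ?_ ?_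
    · refine (List.finite_length_le Bool N).subset ?_
      rintro _ ⟨k, ⟨x, hx, hl⟩, rfl⟩
      show ((act T k).getD []).length ≤ N
      rw [hx]
      exact hl
    · rintro k ⟨x, hx, -⟩ k' ⟨x', hx', -⟩ hkk
      have e : (act T k).getD [] = (act T k').getD [] := hkk
      rw [hx, hx'] at e
      have e2 : x = x' := e
      rw [← e2] at hx'
      exact act_inj T hx hx'
  have h5 : {v : V | ∃ k x, act T k = some x ∧ x.length ≤ N ∧ v = .Z k}.Finite := by
    refine (h4.image V.Z).subset ?_
    rintro v ⟨k, x, h1, h2, rfl⟩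
    exact ⟨k, ⟨x, h1, h2⟩, rfl⟩
  exact h1.union (h2.union (h3.union h5))

theorem locfin (T : TorsorData) (w : ℕ → List Bool) (v : V) :
    ((GV T w).neighborSet v).Finite := by
  suffices h : ∃ N, ∀ b, (R T w v b ∨ R T w b v) → b ∈ locfin_S T N by
    obtain ⟨N, hN⟩ := h
    exact (locfin_fin T N).subset fun b hb => hN b hb
  rcases v with n | ⟨i, m, e⟩ | k
  · refine ⟨n + 2, fun b hb => ?_⟩
    rcases b with n' | ⟨i', m', e'⟩ | k'
    · left
      refine ⟨n', ?_, rfl⟩
      simp only [R, or_false, false_or] at hb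
      omega
    · right; left
      refine ⟨i', m', e', ?_, ?_, rfl⟩
      · simp only [R, or_false, false_or] at hb
        omega
      · simp only [R, or_false, false_or] at hb
        omega
    · simp only [R, or_false, false_or] at hb
      rcases hb with ⟨-, hb⟩ | ⟨x, hx, hb⟩
      · right; right; left
        exact ⟨k', by omega, rfl⟩
      · right; right; right
        exact ⟨k', x, hx, by omega, rfl⟩
  · refine ⟨i + m + 5, fun b hb => ?_⟩
    rcases b with n' | ⟨i', m', e'⟩ | k'
    · left
      refine ⟨n', ?_, rfl⟩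
      simp only [R, or_false, false_or] at hb
      omega
    · right; left
      refine ⟨i', m', e', ?_, ?_, rfl⟩
      · simp only [R, or_false, false_or] at hb
        omega
      · simp only [R, or_false, false_or] at hb
        omega
    · simp only [R, or_false, false_or] at hb
      obtain ⟨x, hx, hb, -⟩ := hb
      right; right; right
      exact ⟨k', x, hx, by omega, rfl⟩
  · refine ⟨k + 3 + ((act T k).getD []).length + 9, fun b hb => ?_⟩
    rcases b with n' | ⟨i', m', e'⟩ | k'
    · left
      refine ⟨n', ?_, rfl⟩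
      simp only [R, or_false, false_or] at hb
      rcases hb with ⟨-, hb⟩ | ⟨x, hx, hb⟩
      · omega
      · rw [hx]
        show n' ≤ k + 3 + x.length + 9
        omega
    · right; left
      simp only [R, or_false, false_or] at hb
      obtain ⟨x, hx, hb, -⟩ := hb
      rw [hx]
      refine ⟨i', m', e', ?_, ?_, rfl⟩
      · show i' ≤ k + 3 + x.length + 9
        omega
      · show m' ≤ k + 3 + x.length + 9
        omega
    · simp only [R, or_false, false_or] at hb

end Pool.Agent.Helper376.CD
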