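import Mathlib

/-! Vertices of the graph, coded by natural numbers. -/

set_option autoImplicit false

namespace Pool.Agent.Helper376.CD

/-- vertices: spine, ribbons, labels (or fillers) -/
inductive V
  | P (n : ℕ)
  | U (i m : ℕ) (e : Bool)
  | Z (k : ℕ)
deriving DecidableEq

/-- code of a vertex -/
def enc : V → ℕ
  | .P n => 3 * n
  | .U i m e => 3 * (2 * Nat.pair i m + e.toNat) + 1
  | .Z k => 3 * k + 2

/-- vertex of a code -/
def dec (n : ℕ) : V :=
  if n % 3 = 0 then .P (n / 3)
  else if n % 3 = 1 then .U (n / 3 / 2).unpair.1 (n / 3 / 2).unpair.2 (decide (n / 3 % 2 = 1))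
  else .Z (n / 3)

theorem dec_enc (v : V) : dec (enc v) = v := by
  rcases v with n | ⟨i, m, e⟩ | k
  · simp [dec, enc]
  · have h1 : (3 * (2 * Nat.pair i m + e.toNat) + 1) % 3 = 1 := by omega
    have h2 : (3 * (2 * Nat.pair i m + e.toNat) + 1) / 3 = 2 * Nat.pair i m + e.toNat := by omega
    have h3 : (2 * Nat.pair i m + e.toNat) / 2 = Nat.pair i m := by
      cases e <;> simp <;> omega
    simp only [dec, enc, h1, h2, h3]
    cases e <;> simp
  · have h1 : (3 * k + 2) % 3 = 2 := by omega
    have h2 : (3 * k + 2) / 3 = k := by omega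
    simp [dec, enc, h1, h2]

theorem enc_dec (n : ℕ) : enc (dec n) = n := by
  unfold dec
  split_ifs with h1 h2
  · simp only [enc]; omega
  · simp only [enc, Nat.pair_unpair]
    have : (decide (n / 3 % 2 = 1)).toNat = n / 3 % 2 := by
      rcases Nat.mod_two_eq_zero_or_one (n / 3) with h | h <;> simp [h]
    rw [this]; omega
  · simp only [enc]; omega

/-- the coding as an equivalence -/
def vEquiv : V ≃ ℕ := ⟨enc, dec, dec_enc, enc_dec⟩

instance : Denumerable V := Denumerable.mk' vEquiv

theorem encode_eq (v : V) : Encodable.encode v = enc v := rfl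

theorem dec_comp : Computable dec := by
  rw [← Computable.encode_iff]
  exact Computable.id.of_eq (fun n => (enc_dec n).symm)

theorem enc_comp : Computable enc := Computable.encode

theorem P_comp : Computable V.P := by
  rw [← Computable.encode_iff]
  show Computable fun n => 3 * n
  exact (Primrec.nat_mul.comp (Primrec.const 3) Primrec.id).to_comp

theorem Z_comp : Computable V.Z := by
  rw [← Computable.encode_iff]
  show Computable fun n => 3 * n + 2
  exact (Primrec.nat_add.comp (Primrec.nat_mul.comp (Primrec.const 3) Primrec.id)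
    (Primrec.const 2)).to_comp

theorem U_comp : Computable (fun q : ℕ × ℕ × Bool => V.U q.1 q.2.1 q.2.2) := by
  rw [← Computable.encode_iff]
  show Computable fun q : ℕ × ℕ × Bool => 3 * (2 * Nat.pair q.1 q.2.1 + q.2.2.toNat) + 1
  have h : Primrec (fun q : ℕ × ℕ × Bool => q.2.2.toNat) :=
    (Primrec.dom_bool Bool.toNat).comp (Primrec.snd.comp Primrec.snd)
  have h2 : Primrec (fun q : ℕ × ℕ × Bool => Nat.pair q.1 q.2.1) :=
    Primrec₂.natPair.comp Primrec.fst (Primrec.fst.comp Primrec.snd)
  exact (Primrec.nat_add.comp (Primrec.nat_mul.comp (Primrec.const 3)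
    (Primrec.nat_add.comp (Primrec.nat_mul.comp (Primrec.const 2) h2) h)) (Primrec.const 1)).to_comp

/-- case distinction on a vertex is computable -/
theorem cases_comp {α σ : Type*} [Primcodable α] [Primcodable σ] {f : α → V}
    {gP : α → ℕ → σ} {gU : α → ℕ × ℕ × Bool → σ} {gZ : α → ℕ → σ} {F : α → σ}
    (hf : Computable f) (hP : Computable₂ gP) (hU : Computable₂ gU) (hZ : Computable₂ gZ)
    (h1 : ∀ a n, f a = V.P n → F a = gP a n)
    (h2 : ∀ a i m e, f a = V.U i m e → F a = gU a (i, m, e))
    (h3 : ∀ a k, f a = V.Z k → F a = gZ a k) : Computable F := by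
  have hc : Computable (fun a => enc (f a)) := enc_comp.comp hf
  have hq : Computable (fun a => enc (f a) / 3) :=
    (Primrec.nat_div.comp Primrec.id (Primrec.const 3)).to_comp.comp hc
  have hm0 : Computable (fun a => decide (enc (f a) % 3 = 0)) :=
    (Primrec.eq.decide.comp (Primrec.nat_mod.comp Primrec.id (Primrec.const 3))
      (Primrec.const 0)).to_comp.comp hc
  have hm1 : Computable (fun a => decide (enc (f a) % 3 = 1)) :=
    (Primrec.eq.decide.comp (Primrec.nat_mod.comp Primrec.id (Primrec.const 3))
      (Primrec.const 1)).to_comp.comp hc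
  have hu : Computable (fun n : ℕ => ((n / 2).unpair.1, (n / 2).unpair.2, decide (n % 2 = 1))) := by
    have e2 : Primrec (fun n : ℕ => n / 2) := Primrec.nat_div.comp Primrec.id (Primrec.const 2)
    exact (Primrec.pair (Primrec.fst.comp (Primrec.unpair.comp e2))
      (Primrec.pair (Primrec.snd.comp (Primrec.unpair.comp e2))
        (Primrec.eq.decide.comp (Primrec.nat_mod.comp Primrec.id (Primrec.const 2))
          (Primrec.const 1)))).to_comp
  have A : Computable (fun a => bif decide (enc (f a) % 3 = 0) then gP a (enc (f a) / 3)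
      else bif decide (enc (f a) % 3 = 1) then
        gU a ((enc (f a) / 3 / 2).unpair.1, (enc (f a) / 3 / 2).unpair.2,
          decide (enc (f a) / 3 % 2 = 1))
      else gZ a (enc (f a) / 3)) := by
    refine Computable.cond hm0 (hP.comp Computable.id hq) (Computable.cond hm1 ?_ ?_)
    · exact hU.comp Computable.id (hu.comp hq)
    · exact hZ.comp Computable.id hq
  refine A.of_eq ?_
  intro a
  have hd := dec_enc (f a)
  generalize enc (f a) = n at hd ⊢
  unfold dec at hd
  split_ifs at hd with c1 c2
  · simp [c1, h1 a _ hd.symm]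
  · simp [c2, h2 a _ _ _ hd.symm]
  · simp [c1, c2, h3 a _ hd.symm]

end Pool.Agent.Helper376.CD
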